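import Pool.Agent.J4.H26.Od.Lst

/-!
Hodge characters of odd degree.
-/

set_option autoImplicit false
set_option linter.unusedSectionVars false

namespace Pool.Agent.J4.H26.Od

open Finset Pool.Agent.H916R2 Pool.Agent.Y2

/-- the condition on the degree -/
def Cond (K m : ℕ) : Prop :=
  ∀ p q : ℕ, p.Prime → q.Prime → p < q → p * q ∣ m → (q ≤ K + 1 ∨ p = 3 ∧ q ≤ 2 * K + 1) →
    p * q ∈ ({15, 21, 33, 35, 39, 51, 57} : Finset ℕ)

lemma Cond.dvd {K d m : ℕ} (h : Cond K m) (hd : d ∣ m) : Cond K d :=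
  fun p q hp hq hpq hdv hc => h p q hp hq hpq (hdv.trans hd) hc

lemma mem_list {q : ℕ} (h : 3 * q ∈ ({15, 21, 33, 35, 39, 51, 57} : Finset ℕ)) :
    q = 5 ∨ q = 7 ∨ q = 11 ∨ q = 13 ∨ q = 17 ∨ q = 19 := by
  simp only [mem_insert, mem_singleton] at h
  omega

lemma exists_lst {q : ℕ} (h : 3 * q ∈ ({15, 21, 33, 35, 39, 51, 57} : Finset ℕ)) :
    ∃ E E0, Lst q E E0 := by
  rcases mem_list h with rfl | rfl | rfl | rfl | rfl | rfl
  · exact ⟨_, _, lst5⟩
  · exact ⟨_, _, lst7⟩
  · exact ⟨_, _, lst11⟩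
  · exact ⟨_, _, lst13⟩
  · exact ⟨_, _, lst17⟩
  · exact ⟨_, _, lst19⟩

/-- the good degrees -/
lemma good_of {K m : ℕ} (hodd : m % 2 = 1) (hC : Cond K m)
    (hsm : ∀ q, q.Prime → q ∣ m → q ≤ K + 1) : Cv.GoodDegree2 (2 * m) := by
  have hm : m ≠ 0 := by rintro rfl; simp at hodd
  have h4 : ¬ 4 ∣ 2 * m := by omega
  have h2 : ¬ 2 ∣ m := by omega
  have hpair : ∀ p q : ℕ, p.Prime → q.Prime → p < q → p ∣ m → q ∣ m →
      p * q ∈ ({15, 21, 33, 35, 39, 51, 57} : Finset ℕ) := by
    intro p q hp hq hpq hpm hqm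
    refine hC p q hp hq hpq ?_ (Or.inl (hsm q hq hqm))
    exact Nat.Coprime.mul_dvd_of_dvd_of_dvd ((Nat.coprime_primes hp hq).mpr hpq.ne) hpm hqm
  -- the largest prime
  by_cases h1 : m = 1
  · left
    intro p hp hpm
    rw [h1, mul_one] at hpm
    exact Or.inl ((Nat.prime_dvd_prime_iff_eq hp Nat.prime_two).mp hpm)
  have hne : m.primeFactors.Nonempty := by
    rw [Nat.nonempty_primeFactors]
    omega
  obtain ⟨q, hqm, hmax⟩ := exists_max_image m.primeFactors (fun q => q) hne
  obtain ⟨hq, hqd, _⟩ := Nat.mem_primeFactors.mp hqm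
  have hle : ∀ p, p.Prime → p ∣ m → p ≤ q := fun p hp hpm =>
    hmax p (Nat.mem_primeFactors.mpr ⟨hp, hpm, hm⟩)
  have hother : ∀ p, p.Prime → p ∣ m → p ≠ q →
      p * q ∈ ({15, 21, 33, 35, 39, 51, 57} : Finset ℕ) := by
    intro p hp hpm hne
    exact hpair p q hp hq (lt_of_le_of_ne (hle p hp hpm) hne) hpm hqd
  have h3 : ∀ p, p.Prime → p ∣ m → 3 ≤ p := by
    intro p hp hpm
    have := hp.two_le
    have : p ≠ 2 := by rintro rfl; exact h2 hpm
    omega
  have hp2 : ∀ p, p.Prime → p ∣ 2 * m → p = 2 ∨ p ∣ m := by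
    intro p hp hpm
    rcases (Nat.Prime.dvd_mul hp).mp hpm with h | h
    · exact Or.inl ((Nat.prime_dvd_prime_iff_eq hp Nat.prime_two).mp h)
    · exact Or.inr h
  by_cases hall : ∀ p, p.Prime → p ∣ m → p = q
  · -- prime powers
    have h5 := Nat.eq_prime_pow_of_unique_prime_dvd hm (fun {p} hp hpm => hall p hp hpm)
    exact Or.inr (Or.inr (Or.inr (Or.inr (Or.inr (Or.inr
      ⟨q, _, hq, Or.inr (by rw [← h5])⟩)))))
  push Not at hall
  obtain ⟨p0, hp0, hp0m, hp0q⟩ := hall
  have hq0 := hother p0 hp0 hp0m hp0q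
  have hp03 := h3 p0 hp0 hp0m
  have hp0le := hle p0 hp0 hp0m
  -- the products of two primes
  have key : ∀ p, p.Prime → 3 ≤ p → p < q → p * q ∈ ({15, 21, 33, 35, 39, 51, 57} : Finset ℕ) →
      (q = 5 ∧ p = 3) ∨ (q = 7 ∧ (p = 3 ∨ p = 5)) ∨ (q = 11 ∧ p = 3) ∨ (q = 13 ∧ p = 3) ∨
      (q = 17 ∧ p = 3) ∨ (q = 19 ∧ p = 3) := by
    intro p hp hp3 hpq hmem
    simp only [mem_insert, mem_singleton] at hmem
    have hp7 : p < 8 := by
      by_contra hge
      push Not at hge
      have : 8 * 8 ≤ p * q := Nat.mul_le_mul hge (by omega)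
      omega
    interval_cases p
    all_goals first
      | (exfalso; revert hp; norm_num; done)
      | omega
  have hk := key p0 hp0 hp03 (lt_of_le_of_ne hp0le hp0q) hq0
  have hq' : q = 5 ∨ q = 7 ∨ q = 11 ∨ q = 13 ∨ q = 17 ∨ q = 19 := by
    rcases hk with h | h | h | h | h | h
    · exact Or.inl h.1
    · exact Or.inr (Or.inl h.1)
    · exact Or.inr (Or.inr (Or.inl h.1))
    · exact Or.inr (Or.inr (Or.inr (Or.inl h.1)))
    · exact Or.inr (Or.inr (Or.inr (Or.inr (Or.inl h.1))))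
    · exact Or.inr (Or.inr (Or.inr (Or.inr (Or.inr h.1))))
  have hcase : ∀ p, p.Prime → p ∣ 2 * m → p = 2 ∨ p = q ∨
      ((q = 5 ∧ p = 3) ∨ (q = 7 ∧ (p = 3 ∨ p = 5)) ∨ (q = 11 ∧ p = 3) ∨ (q = 13 ∧ p = 3) ∨
      (q = 17 ∧ p = 3) ∨ (q = 19 ∧ p = 3)) := by
    intro p hp hpm
    rcases hp2 p hp hpm with h | h
    · exact Or.inl h
    · by_cases hpq : p = q
      · exact Or.inr (Or.inl hpq)
      · exact Or.inr (Or.inr (key p hp (h3 p hp h) (lt_of_le_of_ne (hle p hp h) hpq)
          (hother p hp h hpq)))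
  rcases hq' with rfl | rfl | rfl | rfl | rfl | rfl
  · left
    intro p hp hpm
    have := hcase p hp hpm
    omega
  · refine Or.inr (Or.inr (Or.inr (Or.inr (Or.inr (Or.inl ⟨h4, Or.inl fun p hp hpm => ?_⟩)))))
    have := hcase p hp hpm
    omega
  · refine Or.inr (Or.inr (Or.inr (Or.inl fun p hp hpm => ?_)))
    have := hcase p hp hpm
    omega
  · refine Or.inr (Or.inr (Or.inr (Or.inr (Or.inl fun p hp hpm => ?_))))
    have := hcase p hp hpm
    omega
  · refine Or.inr (Or.inr (Or.inr (Or.inr (Or.inr (Or.inl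
      ⟨h4, Or.inr (Or.inl fun p hp hpm => ?_)⟩)))))
    have := hcase p hp hpm
    omega
  · refine Or.inr (Or.inr (Or.inr (Or.inr (Or.inr (Or.inl
      ⟨h4, Or.inr (Or.inr fun p hp hpm => ?_)⟩)))))
    have := hcase p hp hpm
    omega

/-- a setting with `q` exactly dividing the level -/
lemma ctx_one {q d m : ℕ} {A1 A2 : Multiset ℕ} (H : Setting q d m A1 A2) (hqd : ¬ q ∣ d)
    (hcard : Multiset.card A1 < q - 1) : Ctx q 1 d m A1 :=
  ⟨H.hq, Nat.one_pos, by rw [pow_one]; exact H.hqd, hqd, H.hodd, H.hA,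
    fun i t κ ht hκ h => H.hinv i t κ ht hκ (by simpa using h), by simpa [nm] using hcard⟩

lemma same_of_LL {q k m' m : ℕ} {A B : Multiset ℕ} (HA : Ctx q k m' m A) (HB : Ctx q k m' m B)
    (h : ∀ C : ℕ → ℤ, TD q m (PO q m) C → LL m A C = LL m B C) : Same q m A B := by
  intro C hC hodd
  have h1 := h C hC
  rw [HA.LL_odd hodd, HB.LL_odd hodd] at h1
  linarith

lemma LL_map {m : ℕ} (B : Multiset ℕ) (C : ℕ → ℤ) (k : ℕ) :
    LL m (B.map fun a => k * a) C = LL m B (fun x => C (k * x)) := by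
  unfold LL
  rw [Multiset.map_map]
  congr 1
  apply Multiset.map_congr rfl
  intro a _
  simp only [Function.comp_apply]
  congr 2
  ring

/-- **The comparator.** -/
lemma exists_cmp {K q d m : ℕ} {A1 A2 : Multiset ℕ} (H : Setting q d m A1 A2) (hC : Cond K m)
    (hcard : Multiset.card A1 ≤ K) (hqK : K + 2 ≤ q) :
    ∃ B1 B2, Cmp q d m B1 B2 ∧ Multiset.card B2 ≤ Multiset.card A1 ∧ Same q m A1 B1 := by
  have hq := H.hq
  have hm := H.hm
  have hqo := H.qodd
  obtain ⟨e, m', he, hmu, hqm', _⟩ := decomp hm hq (Dvd.intro d H.hqd)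
  have hqm : q ^ (e + 1) * m' = m := hmu.symm
  have hqd' : q ^ e * m' = d := by
    have h1 : q * (q ^ e * m') = q * d := by rw [H.hqd, ← hqm]; ring
    exact Nat.eq_of_mul_eq_mul_left hq.pos h1
  by_cases he0 : e = 0
  · -- exactly one factor `q`
    have hqd : ¬ q ∣ d := by
      rw [he0, pow_zero, one_mul] at hqd'
      rwa [← hqd']
    have Hc := ctx_one H hqd (by omega)
    rcases Hc.compare with h | ⟨l, hl, hcd, hcmp⟩
    · refine ⟨0, 0, cmp_zero hq H.hqd H.hodd, by simp, ?_⟩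
      intro C hC hodd
      have h1 := h C hC
      rw [Hc.LL_odd hodd] at h1
      simp only [Multiset.map_zero, Multiset.sum_zero]
      linarith
    · have hq3 : q ≠ 3 := by
        rintro rfl
        exact hqd (Dvd.intro _ hl)
      have hmem := hC 3 q Nat.prime_three hq (by have := hq.two_le; omega)
        (by rw [← H.hqd, ← hl]; exact ⟨l, by ring⟩) (Or.inr ⟨rfl, by omega⟩)
      obtain ⟨E, E0, hE⟩ := exists_lst hmem
      have hl0 : l ≠ 0 := by rintro rfl; exact H.hd (by rw [← hl])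
      subst hl
      have hCmp := hE.cmp hq H.hqd hqd H.hodd
      have Hb := ctx_one hCmp.set hqd (by
        rw [Multiset.card_map, Multiset.coe_card]; exact hE.len)
      obtain ⟨ε, hε, hC2⟩ := hcmp _ Hb (hE.ths' l hl0)
      have hcB : Multiset.card ((E0 : Multiset ℕ).map fun x => l * x) ≤ Multiset.card A1 := by
        rw [Multiset.card_map, Multiset.coe_card]
        have := hE.len0
        omega
      rcases hε with rfl | rfl
      · refine ⟨_, _, hCmp, hcB, same_of_LL Hc Hb fun C hC => ?_⟩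
        rw [hC2 C hC, one_mul]
      · have Hb' := ctx_one hCmp.neg.set hqd (by
          rw [Multiset.card_map, Multiset.card_map, Multiset.coe_card]; exact hE.len)
        refine ⟨_, _, hCmp.neg, by rw [Multiset.card_map]; exact hcB,
          same_of_LL Hc Hb' fun C hC => ?_⟩
        rw [hC2 C hC, neg_one_mul, ← Hb.LL_neg hC, LL_map _ C (m - 1)]
  · -- `q` divides `d`
    have Hc : Ctx q (e + 1) m' m A1 :=
      ⟨hq, Nat.succ_pos e, hqm, hqm', H.hodd, H.hA, fun i t κ ht hκ h =>
        H.hinv i t κ ht hκ (by rw [← hqd']; simpa using h), by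
        unfold nm
        rw [if_neg (by omega)]
        omega⟩
    refine ⟨0, 0, cmp_zero hq H.hqd H.hodd, by simp, ?_⟩
    intro C hC hodd
    have h1 := Hc.zero_of_k (by omega) hC
    rw [Hc.LL_odd hodd] at h1
    simp only [Multiset.map_zero, Multiset.sum_zero]
    linarith

/-- **The vanishing of the sums.** -/
theorem main_zero {K : ℕ} : ∀ m : ℕ, m % 2 = 1 → Cond K m → ∀ A : Multiset ℕ,
    Multiset.card A ≤ K → (∀ a ∈ A, ¬ m ∣ a) → (∀ t, Nat.Coprime t m → SW m A t = 0) →
    ∀ (Q : Type) [AddCommGroup Q] (C : ZMod (2 * m) → Q), OddDist C → Kills2 m C →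
      (A.map fun a : ℕ => C ((2 * a : ℕ) : ZMod (2 * m))).sum = 0 := by
  intro m
  induction m using Nat.strong_induction_on with
  | _ m ih =>
  intro hodd hCond A hcard hA hrel Q _ C hC hK
  have hm : m ≠ 0 := by rintro rfl; simp at hodd
  have hN : NeZero m := ⟨hm⟩
  by_cases hbig : ∃ q, q.Prime ∧ q ∣ m ∧ K + 2 ≤ q
  swap
  · push Not at hbig
    have hg := good_of hodd hCond (fun q hq hqm => by have := hbig q hq hqm; omega)
    have h1 := hK 1 m (one_mul m) hg A hA hrel
    simpa only [one_mul] using h1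
  obtain ⟨q, hq, ⟨d, hd⟩, hqK⟩ := hbig
  have H := mkSetting hq hd.symm hodd A hrel
  have hqd : q * d = m := hd.symm
  have hqm : q ∣ m := Dvd.intro d hqd
  have hc1 := card_split q A
  obtain ⟨B1, B2, hB, hcB, hS⟩ := exists_cmp H hCond (by omega) hqK
  have hd0 := H.hd
  have hdodd := H.dodd
  have hNd : NeZero d := ⟨hd0⟩
  have hN2d : NeZero (2 * d) := ⟨by omega⟩
  have hdm : d < m := by
    rw [hd]
    have h3 := hq.two_le
    have h4 : 0 < d := Nat.pos_of_ne_zero hd0
    nlinarith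
  have hfac := factor_pos hq hqm hm (by have := H.qodd; have := hq.two_le; omega)
  -- the part prime to `q`
  have hcC : OddDist (fun b : ZMod m => C (iota 2 b)) := hC.comp_iota rfl
  have hcv : ∀ a : ℕ, C (iota 2 (a : ZMod m)) = C ((2 * a : ℕ) : ZMod (2 * m)) := by
    intro a; rw [iota_natCast rfl]
  have e1 : ((A.filter fun a => ¬ q ∣ a).map fun a : ℕ => C ((2 * a : ℕ) : ZMod (2 * m))).sum =
      (B1.map fun b : ℕ => C ((2 * b : ℕ) : ZMod (2 * m))).sum := by
    have h1 := hS.all hq hqm hm hfac H.hA hB.set.hA Q _ hcC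
    simp only [hcv] at h1
    exact h1
  -- the relations of the other part
  have hlow : ∀ t, Nat.Coprime t d →
      SW d ((A.filter fun a => q ∣ a).map fun a => a / q) t = SW d B2 t := by
    intro t ht
    obtain ⟨t', ht', htt⟩ := lift_coprime (Dvd.intro_left q hqd) hm ht
    have h1 := H.hrel t' ht'
    have h2 := hB.set.hrel t' ht'
    rw [hS.SW hq hqm hm hfac H.hA hB.set.hA ht'] at h1
    rw [← SW_congr _ htt, ← SW_congr _ htt]
    have hq0 : (q : ℤ) ≠ 0 := by exact_mod_cast hq.ne_zero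
    apply mul_left_cancel₀ hq0
    linarith
  have h5 := ih d hdm hdodd (hCond.dvd (Dvd.intro_left q hqd))
    (((A.filter fun a => q ∣ a).map fun a => a / q) + B2.map fun b => (d - 1) * b)
    (by
      have h1 : Multiset.card (B2.map fun b => (d - 1) * b) = Multiset.card B2 :=
        Multiset.card_map _ _
      rw [Multiset.card_add, h1]; omega)
    (by
      intro a ha
      rcases Multiset.mem_add.mp ha with ha | ha
      · exact ndvd_split hqd hA a ha
      · exact hB.neg.nd a ha)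
    (by
      intro t ht
      rw [SW_add, hlow t ht]
      have : SW d (B2.map fun b => (d - 1) * b) t = - SW d B2 t := by
        unfold Y2.SW
        rw [Multiset.map_map]
        apply sum_neg_map
        intro b _
        simp only [Function.comp_apply]
        rw [← saw_neg, ← neg_cast hd0]
        congr 2
        ring
      rw [this, add_neg_cancel])
    Q (fun b : ZMod (2 * d) => C (iota q b)) (hC.comp_iota (by rw [← hqd]; ring)) (hK.comp hqd)
  have hcq : ∀ a : ℕ, C (iota q ((2 * a : ℕ) : ZMod (2 * d))) =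
      C ((2 * (q * a) : ℕ) : ZMod (2 * m)) := by
    intro a
    rw [iota_natCast (by rw [← hqd]; ring)]
    congr 2; ring
  simp only [hcq] at h5
  rw [Multiset.map_add, Multiset.sum_add, Multiset.map_map (fun a : ℕ =>
    C ((2 * (q * a) : ℕ) : ZMod (2 * m))) (fun b => (d - 1) * b)] at h5
  have e2 : (B2.map ((fun a : ℕ => C ((2 * (q * a) : ℕ) : ZMod (2 * m))) ∘
      fun b => (d - 1) * b)).sum =
      - (B2.map fun b : ℕ => C ((2 * (q * b) : ℕ) : ZMod (2 * m))).sum := by
    apply sum_neg_map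
    intro b _
    simp only [Function.comp_apply]
    have e3 : 2 * (q * ((d - 1) * b)) = 2 * q * ((d - 1) * b) := by ring
    have e4 : 2 * (q * b) = 2 * q * b := by ring
    rw [e3, e4, neg_cast2 hd0 (by rw [mul_assoc, hqd]), hC.neg]
  rw [e2] at h5
  rw [split_sum (q := q), e1]
  have h6 := hB.kill Q C hC hK
  have h7 : (((A.filter fun a => q ∣ a).map fun a => a / q).map
      fun b : ℕ => C ((2 * (q * b) : ℕ) : ZMod (2 * m))).sum =
      (B2.map fun b : ℕ => C ((2 * (q * b) : ℕ) : ZMod (2 * m))).sum := by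
    rwa [← sub_eq_add_neg, sub_eq_zero] at h5
  rw [h7]
  exact h6

lemma kills2_cQ {m : ℕ} (hodd : m % 2 = 1) :
    Kills2 m (cQ (2 * m) (Cv.SurfaceOrCurveProduct (2 * m))) := by
  intro l e hle hg A hA hrel
  have hm : m ≠ 0 := by rintro rfl; simp at hodd
  have he0 : e ≠ 0 := by rintro rfl; rw [mul_zero] at hle; exact hm hle.symm
  have heodd : e % 2 = 1 := by
    rw [← hle, ← Nat.odd_iff, Nat.odd_mul] at hodd
    exact Nat.odd_iff.mp hodd.2
  have hN : NeZero (2 * e) := ⟨by omega⟩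
  have hN' : NeZero (2 * m) := ⟨by omega⟩
  have hNe : NeZero e := ⟨he0⟩
  by_cases hne : A = 0
  · rw [hne]; simp
  have hle2 : l * (2 * e) = 2 * m := by rw [← hle]; ring
  set s : Multiset (ZMod (2 * e)) := A.map fun a : ℕ => ((2 * a : ℕ) : ZMod (2 * e)) with hs
  have hsH : IsHodge (2 * e) s := by
    apply isHodge_of_saw
    · intro h
      obtain ⟨a, ha, ha0⟩ := Multiset.mem_map.mp h
      rw [ZMod.natCast_eq_zero_iff] at ha0
      exact hA a ha (Nat.dvd_of_mul_dvd_mul_left (by norm_num) ha0)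
    · rw [hs, Multiset.card_map]
      exact Nat.even_iff.mpr (card_even heodd hA hrel)
    · intro t
      have ht := ZMod.val_coe_unit_coprime t
      have h1 := hrel (t : ZMod (2 * e)).val (Nat.Coprime.coprime_mul_left_right ht)
      rw [hs, Multiset.map_map]
      have h2 : A.map ((fun a => saw ((t : ZMod (2 * e)) * a)) ∘
          fun a : ℕ => ((2 * a : ℕ) : ZMod (2 * e))) =
          A.map fun a => (2 : ℤ) * saw (((t : ZMod (2 * e)).val * a : ℕ) : ZMod e) := by
        apply Multiset.map_congr rfl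
        intro a _
        simp only [Function.comp_apply]
        have h3 := saw_mul_level (m := 2 * e) (d := e) (q := 2) (by omega) rfl
          ((t : ZMod (2 * e)).val * a)
        rw [Nat.cast_ofNat (R := ℤ)] at h3
        rw [← h3]
        congr 1
        push_cast
        rw [ZMod.natCast_zmod_val]
        ring
      rw [h2, Multiset.sum_map_mul_left]
      unfold Y2.SW at h1
      rw [h1, mul_zero]
  have hsne : s ≠ 0 := by
    intro h
    rw [hs, Multiset.map_eq_zero] at h
    exact hne h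
  have hgen := Cv.main2_even (by omega) (Dvd.intro e rfl) hg s hsH hsne
  have h3 := gen_sum_zero
    ((cQ_oddDist (m := 2 * m) (base := Cv.SurfaceOrCurveProduct (2 * m))).comp_iota hle2) (by
    intro u hu
    have hu' : Cv.SurfaceOrCurveProduct (2 * m) (u.map (iota l : ZMod (2 * e) → ZMod (2 * m))) := by
      rcases hu with ⟨h1, h2⟩ | h1
      · exact Or.inl ⟨h1.iota hle2, by rw [Multiset.card_map]; exact h2⟩
      · exact Or.inr (h1.lift hle2)
    have h3 := cQ_sum_eq_zero (Generated.ofBase (m := 2 * m)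
      (base := Cv.SurfaceOrCurveProduct (2 * m)) (u.map (iota l)) hu')
    rw [Multiset.map_map] at h3
    exact h3) hgen
  rw [hs, Multiset.map_map] at h3
  rw [← h3]
  congr 1
  apply Multiset.map_congr rfl
  intro a _
  simp only [Function.comp_apply]
  rw [iota_natCast hle2]
  congr 2
  ring

/-- **Odd degrees.** -/
theorem main {K m : ℕ} (hodd : m % 2 = 1) (hC : Cond K m) (s : Multiset (ZMod m))
    (hs : IsHodge m s) (hcard : Multiset.card s ≤ K) (hne : s ≠ 0) :
    Generated (2 * m) (Cv.SurfaceOrCurveProduct (2 * m))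
      (s.map fun a => ((2 * a.val : ℕ) : ZMod (2 * m))) := by
  have hm : m ≠ 0 := by rintro rfl; simp at hodd
  have hN : NeZero m := ⟨hm⟩
  have hN' : NeZero (2 * m) := ⟨by omega⟩
  have hiota : (s.map fun a => ((2 * a.val : ℕ) : ZMod (2 * m))) =
      s.map (iota 2 : ZMod m → ZMod (2 * m)) := rfl
  have h2s := hs.iota (m := 2 * m) (k := 2) rfl
  have h1 := main_zero m hodd hC (s.map ZMod.val) (by rwa [Multiset.card_map]) (by
    intro a ha h
    obtain ⟨b, hb', rfl⟩ := Multiset.mem_map.mp ha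
    have h3 := (ZMod.natCast_eq_zero_iff b.val m).mpr h
    rw [ZMod.natCast_zmod_val] at h3
    exact hs.1 (h3 ▸ hb')) (fun t ht => saw_rel s hs t ht) _
    (cQ (2 * m) (Cv.SurfaceOrCurveProduct (2 * m))) cQ_oddDist (kills2_cQ hodd)
  rw [Multiset.map_map] at h1
  have h2 : ((s.map fun a => ((2 * a.val : ℕ) : ZMod (2 * m))).map
      (cQ (2 * m) (Cv.SurfaceOrCurveProduct (2 * m)))).sum = 0 := by
    rw [Multiset.map_map]
    exact h1
  rw [cQ_sum, QuotientAddGroup.eq_zero_iff] at h2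
  rw [hiota] at h2 ⊢
  exact generated_of_mem_LL Cv.base_good Cv.base_neg h2s.1 h2s.2.1 (by
    intro h
    rw [Multiset.map_eq_zero] at h
    exact hne h) h2

/-- at most eight entries -/
lemma cond_eight {m : ℕ} (hodd : m % 2 = 1) : Cond 8 m := by
  intro p q hp hq hpq hdv hc
  have hp2 : p ≠ 2 := by
    rintro rfl
    have : 2 ∣ m := (Dvd.intro _ rfl).trans hdv
    omega
  have hp3 : 3 ≤ p := by have := hp.two_le; omega
  have hq17 : q ≤ 17 := by omega
  have hp17 : p ≤ 17 := by omega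
  interval_cases p <;> interval_cases q <;>
    first
    | (exfalso; revert hp; norm_num; done)
    | (exfalso; revert hq; norm_num; done)
    | (exfalso; omega)
    | decide

end Pool.Agent.J4.H26.Od
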