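import Pool.Agent.J4.H26.Od.Sup
import Pool.Agent.Y2.Gap
import Pool.Agent.Y2.Fourfold

/-!
The functional of a short invariant multiset is a multiple, by `-1`, `0` or `1`, of one functional of
level `3 * q`.
-/

set_option autoImplicit false
set_option linter.unusedSectionVars false

namespace Pool.Agent.J4.H26.Od

open Finset Pool.Agent.H916R2 Pool.Agent.Y2

/-- representatives, congruent to one modulo `m'`, of the units modulo `q` -/
structure IsJ (q m' m : ℕ) (J : Finset ℕ) : Prop where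
  card : J.card = q - 1
  cop : ∀ κ ∈ J, Nat.Coprime κ m
  one : ∀ κ ∈ J, κ ≡ 1 [MOD m']
  inj : ∀ κ ∈ J, ∀ κ' ∈ J, κ ≡ κ' [MOD q] → κ = κ'

/-- the sum over the representatives -/
def SJ {R : Type*} [AddCommMonoid R] (J : Finset ℕ) (C : ℕ → R) (b : ℕ) : R := ∑ κ ∈ J, C (κ * b)

namespace IsJ

variable {q m' m : ℕ} {J : Finset ℕ}

lemma ndvd (hJ : IsJ q m' m J) (hq : q.Prime) (hqm : q ∣ m) {κ : ℕ} (hκ : κ ∈ J) : ¬ q ∣ κ := by
  intro h
  have h1 := hJ.cop κ hκ
  have h2 : q ∣ Nat.gcd κ m := Nat.dvd_gcd h hqm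
  rw [h1] at h2
  exact hq.one_lt.ne' (Nat.dvd_one.mp h2)

lemma surj (hJ : IsJ q m' m J) (hq : q.Prime) (hqm : q ∣ m) {c : ℕ} (hc : ¬ q ∣ c) :
    ∃ κ ∈ J, κ ≡ c [MOD q] := by
  classical
  have hU : ((range q).filter (fun i => ¬ q ∣ 0 + i * 1)).card = q - 1 :=
    card_not_dvd hq (fun h => hq.one_lt.ne' (Nat.dvd_one.mp h)) 0
  have hsub : J.image (fun κ => κ % q) ⊆ (range q).filter (fun i => ¬ q ∣ 0 + i * 1) := by
    intro x hx
    obtain ⟨κ, hκ, rfl⟩ := mem_image.mp hx
    refine mem_filter.mpr ⟨mem_range.mpr (Nat.mod_lt _ hq.pos), ?_⟩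
    rw [zero_add, mul_one, Nat.dvd_mod_iff dvd_rfl]
    exact hJ.ndvd hq hqm hκ
  have hcard : (J.image (fun κ => κ % q)).card = q - 1 := by
    rw [Finset.card_image_of_injOn, hJ.card]
    intro x hx y hy h
    exact hJ.inj x hx y hy h
  have heq := Finset.eq_of_subset_of_card_le hsub (by rw [hU, hcard])
  have hmem : c % q ∈ J.image (fun κ => κ % q) := by
    rw [heq]
    refine mem_filter.mpr ⟨mem_range.mpr (Nat.mod_lt _ hq.pos), ?_⟩
    rw [zero_add, mul_one, Nat.dvd_mod_iff dvd_rfl]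
    exact hc
  obtain ⟨κ, hκ, h⟩ := mem_image.mp hmem
  exact ⟨κ, hκ, h⟩

lemma sum_eq (hJ : IsJ q m' m J) (hq : q.Prime) (hqm : q * m' = m) (hq' : ¬ q ∣ m')
    {R : Type*} [AddCommMonoid R] {C : ℕ → R} (hC : ∀ x y, x ≡ y [MOD m] → C x = C y) {b b' : ℕ}
    (hb : ¬ q ∣ b) (hb' : ¬ q ∣ b') (h : b ≡ b' [MOD m']) : SJ J C b = SJ J C b' := by
  classical
  have hqdm : q ∣ m := Dvd.intro _ hqm
  obtain ⟨u, _, hu⟩ := Nat.exists_mul_mod_eq_of_coprime b
    (Nat.coprime_comm.mp ((Nat.Prime.coprime_iff_not_dvd hq).mpr hb')) hq.ne_zero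
  have hu' : b' * u ≡ b [MOD q] := hu
  have hqu : ¬ q ∣ u := by
    intro h1
    exact hb ((hu'.dvd_iff dvd_rfl).mp (h1.mul_left b'))
  have hex : ∀ κ : ℕ, ∃ κ', κ ∈ J → κ' ∈ J ∧ κ' ≡ κ * u [MOD q] := by
    intro κ
    by_cases hκ : κ ∈ J
    · have h1 : ¬ q ∣ κ * u := by
        intro h2
        rcases (Nat.Prime.dvd_mul hq).mp h2 with h2 | h2
        · exact hJ.ndvd hq hqdm hκ h2
        · exact hqu h2
      obtain ⟨κ', h2, h3⟩ := hJ.surj hq hqdm h1
      exact ⟨κ', fun _ => ⟨h2, h3⟩⟩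
    · exact ⟨0, fun h => absurd h hκ⟩
  choose σ hσ using hex
  have hinj : Set.InjOn σ (J : Set ℕ) := by
    intro x hx y hy hxy
    have h1 := (hσ x hx).2
    have h2 := (hσ y hy).2
    rw [hxy] at h1
    have h3 : x * u ≡ y * u [MOD q] := h1.symm.trans h2
    exact hJ.inj x hx y hy (Nat.ModEq.cancel_right_of_coprime
      ((Nat.Prime.coprime_iff_not_dvd hq).mpr hqu) h3)
  have himg : J.image σ = J := by
    apply Finset.eq_of_subset_of_card_le
    · intro x hx
      obtain ⟨κ, hκ, rfl⟩ := mem_image.mp hx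
      exact (hσ κ hκ).1
    · rw [Finset.card_image_of_injOn hinj]
  unfold SJ
  conv_rhs => rw [← himg]
  rw [Finset.sum_image (by intro x hx y hy hxy; exact hinj hx hy hxy)]
  refine sum_congr rfl fun κ hκ => ?_
  obtain ⟨h1, h2⟩ := hσ κ hκ
  apply hC
  rw [← hqm]
  refine (Nat.modEq_and_modEq_iff_modEq_mul ((Nat.Prime.coprime_iff_not_dvd hq).mpr hq')).mp
    ⟨?_, ?_⟩
  · have h3 : σ κ * b' ≡ κ * u * b' [MOD q] := h2.mul_right b'
    have h4 : κ * (b' * u) ≡ κ * b [MOD q] := hu'.mul_left κ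
    have h5 : κ * u * b' = κ * (b' * u) := by ring
    rw [h5] at h3
    exact (h3.trans h4).symm
  · have h3 : κ * b ≡ 1 * b [MOD m'] := (hJ.one κ hκ).mul_right b
    have h4 : σ κ * b' ≡ 1 * b' [MOD m'] := (hJ.one _ h1).mul_right b'
    rw [one_mul] at h3 h4
    exact h3.trans (h.trans h4.symm)

end IsJ

namespace Ctx

section general

variable {q k m' m : ℕ} {A : Multiset ℕ} (H : Ctx q k m' m A)

include H

lemma LL_expand_int {D : ℕ → ℕ → ℤ} (hD : ∀ b, TD q m (PO q m) (D b) ∧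
    ∀ x, IsB q m x → D b x = if x % m = b then 1 else 0) {C : ℕ → ℤ} (hC : TD q m (PO q m) C) :
    LL m A C = ∑ b ∈ BN q m, C b * LL m A (D b) := by
  have h1 := H.LL_expand hD (hC.map (Int.castAddHom ℚ))
  have h2 : LL m A (fun x => ((C x : ℤ) : ℚ)) = ((LL m A C : ℤ) : ℚ) := LL_cast C
  change LL m A (fun x => ((C x : ℤ) : ℚ)) = _ at h1
  rw [h2] at h1
  have h3 : ((LL m A C : ℤ) : ℚ) = ((∑ b ∈ BN q m, C b * LL m A (D b) : ℤ) : ℚ) := by
    rw [h1]; push_cast; rfl
  exact_mod_cast h3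

lemma LL_neg {C : ℕ → ℤ} (hC : TD q m (PO q m) C) :
    LL m A (fun x => C ((m - 1) * x)) = - LL m A C := by
  unfold LL
  apply sum_neg_map
  intro a _
  change C ((m - 1) * a) - C ((m - 1) * ((m - 1) * a)) = -(C a - C ((m - 1) * a))
  rw [hC.per _ _ (H.neg_neg_modEq a)]
  ring

lemma LL_odd {C : ℕ → ℤ} (hC : ∀ x y, m ∣ x + y → C y = - C x) :
    LL m A C = 2 * (A.map C).sum := by
  unfold LL
  rw [← Multiset.sum_map_mul_left]
  congr 1
  apply Multiset.map_congr rfl
  intro a _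
  rw [hC a ((m - 1) * a) (by rw [H.m1s]; exact Dvd.intro _ rfl)]
  ring

/-- no level `3 * q` if `k` is not one -/
theorem zero_of_k (hk : k ≠ 1) {C : ℕ → ℤ} (hC : TD q m (PO q m) C) : LL m A C = 0 := by
  obtain ⟨D, hD⟩ := H.exists_dual
  rw [H.LL_expand_int hD hC]
  apply sum_eq_zero
  intro b hb
  by_cases hn : LL m A (D b) = 0
  · rw [hn, mul_zero]
  · exact absurd (H.supp hD hb hn).1 hk

end general

variable {q m' m : ℕ} {A : Multiset ℕ} (H : Ctx q 1 m' m A)

include H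

lemma qm : q * m' = m := by
  have := H.hqm
  rwa [pow_one] at this

lemma exists_IsJ : ∃ J, IsJ q m' m J := by
  obtain ⟨J, h1, h2, h3⟩ := H.exists_J
  refine ⟨J, ?_, fun κ hκ => (h2 κ hκ).1, ?_, ?_⟩
  · simpa [nm] using h1
  · intro κ hκ
    have := (h2 κ hκ).2
    simpa using this
  · intro κ hκ κ' hκ' h
    exact h3 κ hκ κ' hκ' (by simpa using h)

variable {J : Finset ℕ} (hJ : IsJ q m' m J)

include hJ

lemma avgJ {D : ℕ → ℕ → ℤ} (hD : ∀ b, TD q m (PO q m) (D b) ∧
    ∀ x, IsB q m x → D b x = if x % m = b then 1 else 0) {C : ℕ → ℤ} (hC : TD q m (PO q m) C) :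
    ((q : ℤ) - 1) * LL m A C = ∑ b ∈ BN q m, SJ J C b * LL m A (D b) := by
  have h1 : ∀ κ ∈ J, LL m A C = ∑ b ∈ BN q m, C (κ * b) * LL m A (D b) := by
    intro κ hκ
    rw [← H.LL_inv hC (hJ.cop κ hκ) (by simpa using hJ.one κ hκ)]
    exact H.LL_expand_int hD (hC.mul H.hPp (hJ.cop κ hκ))
  have h2 : (J.card : ℤ) * LL m A C = ∑ κ ∈ J, ∑ b ∈ BN q m, C (κ * b) * LL m A (D b) := by
    rw [← sum_congr rfl h1, sum_const, nsmul_eq_mul]
  rw [hJ.card, Nat.cast_sub H.hq.one_le, Nat.cast_one, sum_comm] at h2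
  rw [h2]
  refine sum_congr rfl fun b _ => ?_
  unfold SJ
  rw [sum_mul]

lemma SJ_eq {C : ℕ → ℤ} (hC : TD q m (PO q m) C) {b b' : ℕ}
    (hb : ¬ q ∣ b) (hb' : ¬ q ∣ b') (h : b ≡ b' [MOD m']) : SJ J C b = SJ J C b' :=
  hJ.sum_eq H.hq H.qm H.hqm' hC.per hb hb' h

omit hJ in
lemma SJ_neg (C : ℕ → ℤ) (b : ℕ) : SJ J (fun x => C ((m - 1) * x)) b = SJ J C ((m - 1) * b) := by
  unfold SJ
  refine sum_congr rfl fun κ _ => ?_
  change C ((m - 1) * (κ * b)) = C (κ * ((m - 1) * b))
  congr 1; ring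

omit hJ in
lemma nq {b : ℕ} (hb : ¬ q ∣ b) : ¬ q ∣ (m - 1) * b := by
  intro h
  rcases (Nat.Prime.dvd_mul H.hq).mp h with h | h
  · have h4 : q ∣ Nat.gcd (m - 1) m := Nat.dvd_gcd h H.hqdm
    rw [H.m1c] at h4
    exact H.hq.one_lt.ne' (Nat.dvd_one.mp h4)
  · exact hb h

/-- The relation of level three. -/
lemma SJ_three {l : ℕ} (hl : 3 * l = m') {y : ℕ} (hy3 : ¬ 3 ∣ y) (hqy : ¬ q ∣ l * y)
    {C : ℕ → ℤ} (hC : TD q m (PO q m) C) :
    SJ J C (l * y) + SJ J C ((m - 1) * (l * y)) = 0 := by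
  have hq := H.hq
  have hqm' := H.hqm'
  have h3m' : 3 ∣ m' := Dvd.intro _ hl
  have hlm' : l ∣ m' := Dvd.intro_left _ hl
  have hq3 : ¬ 3 ∣ q := by
    intro h
    have h1 := (Nat.prime_dvd_prime_iff_eq Nat.prime_three hq).mp h
    exact hqm' (h1 ▸ h3m')
  have h3q : ¬ q ∣ 3 := by
    intro h
    exact hq3 (by rw [(Nat.prime_dvd_prime_iff_eq hq Nat.prime_three).mp h])
  have hm3 : m / 3 = q * l := by
    rw [← H.qm, ← hl]
    rw [show q * (3 * l) = 3 * (q * l) by ring]
    exact Nat.mul_div_cancel_left _ (by norm_num)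
  have hPO : 3 ∈ PO q m := by
    rw [PO, Finset.mem_erase]
    exact ⟨fun h => hq3 (h ▸ dvd_rfl), Nat.mem_primeFactors.mpr
      ⟨Nat.prime_three, h3m'.trans H.mm, H.hm⟩⟩
  -- the relation
  have hd : ∀ κ ∈ J, C (κ * (l * y)) + C (κ * (l * y + q * l)) + C (κ * (l * y + 2 * (q * l))) =
      C (κ * (3 * (l * y))) := by
    intro κ hκ
    have h1 := hC.dist 3 hPO (κ * (l * y))
    rw [hm3, sum_range_succ, sum_range_succ, sum_range_succ, sum_range_zero] at h1
    have hcong : ∀ i, κ * (l * y) + i * (q * l) ≡ κ * (l * y + i * (q * l)) [MOD m] := by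
      intro i
      rw [mul_add]
      apply Nat.ModEq.add_left
      have h2 : κ * (i * l) ≡ 1 * (i * l) [MOD m'] := (hJ.one κ hκ).mul_right _
      have h3 := Nat.ModEq.mul_left' q h2
      rw [H.qm] at h3
      have e1 : q * (κ * (i * l)) = κ * (i * (q * l)) := by ring
      have e2 : q * (1 * (i * l)) = i * (q * l) := by ring
      rw [e1, e2] at h3
      exact h3.symm
    have e0 := hC.per _ _ (hcong 0)
    have e1 := hC.per _ _ (hcong 1)
    have e2 := hC.per _ _ (hcong 2)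
    rw [e0, e1, e2] at h1
    simp only [zero_mul, add_zero, zero_add, one_mul] at h1
    rw [h1]
    congr 1; ring
  have hS : SJ J C (l * y) + SJ J C (l * y + q * l) + SJ J C (l * y + 2 * (q * l)) =
      SJ J C (3 * (l * y)) := by
    unfold SJ
    rw [← sum_add_distrib, ← sum_add_distrib]
    exact sum_congr rfl hd
  have hqi : ∀ i, ¬ q ∣ l * y + i * (q * l) := by
    intro i h
    exact hqy ((Nat.dvd_add_left (Dvd.dvd.mul_left (Dvd.intro _ rfl) i)).mp h)
  have hq1 : ¬ q ∣ l * y + q * l := by simpa using hqi 1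
  have hq2 := hqi 2
  have hq3' : ¬ q ∣ 3 * (l * y) := by
    intro h
    rcases (Nat.Prime.dvd_mul hq).mp h with h | h
    · exact h3q h
    · exact hqy h
  have hqn := H.nq hqy
  -- congruence with the negative
  have hneg : ∀ x, m' ∣ l * y + x → x ≡ (m - 1) * (l * y) [MOD m'] := by
    intro x hx
    apply Nat.ModEq.add_left_cancel' (l * y)
    rw [H.m1s]
    exact ((Nat.modEq_zero_iff_dvd).mpr hx).trans
      ((Nat.modEq_zero_iff_dvd).mpr (H.mm.mul_right _)).symm
  have hzero : ∀ x, m' ∣ x → x ≡ 3 * (l * y) [MOD m'] := by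
    intro x hx
    refine ((Nat.modEq_zero_iff_dvd).mpr hx).trans ((Nat.modEq_zero_iff_dvd).mpr ?_).symm
    rw [← mul_assoc, hl]
    exact Dvd.intro _ rfl
  have hcase : 3 ∣ y + q ∨ 3 ∣ y + 2 * q := by
    have h1 : y % 3 = 1 ∨ y % 3 = 2 := by omega
    have h2 : q % 3 = 1 ∨ q % 3 = 2 := by omega
    rcases h1 with h1 | h1 <;> rcases h2 with h2 | h2 <;> omega
  rcases hcase with h | h
  · have h1 : SJ J C (l * y + q * l) = SJ J C (3 * (l * y)) := by
      apply H.SJ_eq hJ hC hq1 hq3' (hzero _ _)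
      rw [← hl, mul_comm q l, ← mul_add, mul_comm 3 l]
      exact Nat.mul_dvd_mul_left l h
    have h2 : SJ J C (l * y + 2 * (q * l)) = SJ J C ((m - 1) * (l * y)) := by
      apply H.SJ_eq hJ hC hq2 hqn (hneg _ _)
      have e : l * y + (l * y + 2 * (q * l)) = l * (2 * (y + q)) := by ring
      rw [e, ← hl, mul_comm 3 l]
      exact Nat.mul_dvd_mul_left l (h.mul_left 2)
    rw [h1, h2] at hS
    linarith
  · have h1 : SJ J C (l * y + 2 * (q * l)) = SJ J C (3 * (l * y)) := by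
      apply H.SJ_eq hJ hC hq2 hq3' (hzero _ _)
      have e : l * y + 2 * (q * l) = l * (y + 2 * q) := by ring
      rw [e, ← hl, mul_comm 3 l]
      exact Nat.mul_dvd_mul_left l h
    have h2 : SJ J C (l * y + q * l) = SJ J C ((m - 1) * (l * y)) := by
      apply H.SJ_eq hJ hC hq1 hqn (hneg _ _)
      have e : l * y + (l * y + q * l) = l * (2 * y + q) := by ring
      rw [e, ← hl, mul_comm 3 l]
      exact Nat.mul_dvd_mul_left l (by omega)
    rw [h1, h2] at hS
    linarith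

/-- **The functional.** -/
theorem trich : (∀ C : ℕ → ℤ, TD q m (PO q m) C → LL m A C = 0) ∨
    ∃ l, 3 * l = m' ∧ ∃ n : ℤ, ∀ C : ℕ → ℤ, TD q m (PO q m) C →
      LL m A C = n * SJ J C (2 * l) := by
  classical
  have hq := H.hq
  have hqm' := H.hqm'
  have hm := H.hm
  obtain ⟨D, hD⟩ := H.exists_dual
  let S3 := (BN q m).filter (fun b => LL m A (D b) ≠ 0 ∧ ¬ m' ∣ b)
  let S1 := (BN q m).filter (fun b => LL m A (D b) ≠ 0 ∧ m' ∣ b)
  have hBq : ∀ b ∈ BN q m, ¬ q ∣ b := fun b hb => (mem_filter.mp hb).2.1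
  have hY : ∀ C : ℕ → ℤ, TD q m (PO q m) C → SJ J (fun x => C ((m - 1) * x)) m' = SJ J C m' := by
    intro C hC
    rw [H.SJ_neg]
    apply H.SJ_eq hJ hC (H.nq hqm') hqm'
    exact ((Nat.modEq_zero_iff_dvd).mpr (Dvd.intro_left _ rfl)).trans
      ((Nat.modEq_zero_iff_dvd).mpr dvd_rfl).symm
  have hsplit : ∀ C : ℕ → ℤ, TD q m (PO q m) C → ((q : ℤ) - 1) * LL m A C =
      ∑ b ∈ S3, SJ J C b * LL m A (D b) + SJ J C m' * ∑ b ∈ S1, LL m A (D b) := by
    intro C hC
    rw [H.avgJ hJ hD hC]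
    have h1 : ∑ b ∈ BN q m, SJ J C b * LL m A (D b) =
        ∑ b ∈ (BN q m).filter (fun b => LL m A (D b) ≠ 0), SJ J C b * LL m A (D b) := by
      rw [Finset.sum_filter]
      refine sum_congr rfl fun b _ => ?_
      split_ifs with h
      · rfl
      · rw [not_not.mp h, mul_zero]
    rw [h1, ← Finset.sum_filter_add_sum_filter_not _ (fun b => ¬ m' ∣ b), Finset.filter_filter,
      Finset.filter_filter]
    congr 1
    rw [mul_sum]
    have h2 : (BN q m).filter (fun b => LL m A (D b) ≠ 0 ∧ ¬ ¬ m' ∣ b) = S1 := by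
      apply Finset.filter_congr
      intro b _
      rw [not_not]
    rw [h2]
    refine sum_congr rfl fun b hb => ?_
    obtain ⟨hbB, _, hdv⟩ := mem_filter.mp hb
    rw [H.SJ_eq hJ hC (hBq b hbB) hqm' (((Nat.modEq_zero_iff_dvd).mpr hdv).trans
      ((Nat.modEq_zero_iff_dvd).mpr dvd_rfl).symm)]
  have hq1 : ((q : ℤ) - 1) ≠ 0 := by
    have : (2 : ℤ) ≤ q := by exact_mod_cast hq.two_le
    omega
  rcases S3.eq_empty_or_nonempty with hS3 | ⟨b1, hb1⟩
  · left
    intro C hC
    have h1 := hsplit C hC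
    have h2 := hsplit _ (hC.mul H.hPp H.m1c)
    rw [H.LL_neg hC, hY C hC] at h2
    rw [hS3, sum_empty, zero_add] at h1 h2
    have h3 : ((q : ℤ) - 1) * LL m A C = 0 := by linarith
    exact (mul_eq_zero.mp h3).resolve_left hq1
  · right
    obtain ⟨hb1B, hb1n, hb1d⟩ := mem_filter.mp hb1
    -- the level of the members of `S3`
    have hlev : ∀ b ∈ S3, ∃ l y, b = l * y ∧ l * (3 * q) = m ∧ ¬ 3 ∣ y := by
      intro b hb
      obtain ⟨hbB, hbn, hbd⟩ := mem_filter.mp hb
      obtain ⟨_, g, hg, h⟩ := H.supp hD hbB hbn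
      rcases h with h | h
      · exfalso
        apply hbd
        have h1 : g = m' := by
          have h2 : q * g = q * m' := by rw [H.qm, mul_comm]; exact h
          exact Nat.eq_of_mul_eq_mul_left hq.pos h2
        rw [← h1, ← hg]
        exact Nat.gcd_dvd_left _ _
      · obtain ⟨y, hy⟩ : g ∣ b := by rw [← hg]; exact Nat.gcd_dvd_left _ _
        refine ⟨g, y, hy, h, ?_⟩
        intro h3
        have hg0 : 0 < g := by
          rcases Nat.eq_zero_or_pos g with h0 | h0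
          · rw [h0, zero_mul] at h; exact absurd h.symm hm
          · exact h0
        have h4 : 3 * g ∣ Nat.gcd b m := by
          apply Nat.dvd_gcd
          · rw [hy, mul_comm 3 g]; exact Nat.mul_dvd_mul_left g h3
          · rw [← h, mul_comm 3 g]; exact Nat.mul_dvd_mul_left g (Dvd.intro _ rfl)
        rw [hg] at h4
        have := Nat.le_of_dvd hg0 h4
        omega
    obtain ⟨l, y1, hb1y, hlm, hy1⟩ := hlev b1 hb1
    have hl3 : 3 * l = m' := by
      have h2 : q * (3 * l) = q * m' := by rw [H.qm, ← hlm]; ring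
      exact Nat.eq_of_mul_eq_mul_left hq.pos h2
    have hlpos : 0 < l := by
      rcases Nat.eq_zero_or_pos l with h0 | h0
      · rw [h0, zero_mul] at hlm; exact absurd hlm.symm hm
      · exact h0
    have h3q0 : 3 * q ≠ 0 := by have := hq.pos; omega
    have hq3 : q ≠ 3 := by
      rintro rfl
      exact hqm' (Dvd.intro _ hl3)
    have hfac : (3 * q).factorization 3 = 1 := by
      rw [Nat.factorization_mul (by norm_num) hq.ne_zero, Finsupp.add_apply,
        Nat.Prime.factorization_self Nat.prime_three,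
        Nat.factorization_eq_zero_of_not_dvd (fun h => hq3
          ((Nat.prime_dvd_prime_iff_eq Nat.prime_three hq).mp h).symm)]
    have hPO : 3 ∈ PO q m := by
      rw [PO, Finset.mem_erase]
      exact ⟨fun h => hq3 h.symm, Nat.mem_primeFactors.mpr
        ⟨Nat.prime_three, (Dvd.intro _ hl3 : 3 ∣ m').trans H.mm, hm⟩⟩
    -- all members of `S3` are congruent modulo `m'`
    have hcong : ∀ b ∈ S3, b ≡ b1 [MOD m'] := by
      intro b hb
      obtain ⟨l', y, hby, hlm2, hy⟩ := hlev b hb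
      have hll : l' = l := Nat.eq_of_mul_eq_mul_right (Nat.pos_of_ne_zero h3q0)
        (hlm2.trans hlm.symm)
      subst hll
      obtain ⟨z, _, hz3, hzT, _⟩ := exists_exc hm hlm2 Nat.prime_three
        (Dvd.intro _ rfl : 3 ∣ 3 * q) hy
      rw [hfac, pow_one] at hzT
      have t1 := hzT y ((mem_filter.mp (mem_filter.mp hb).1).2.2 3 hPO |> fun h => by rwa [← hby])
      have t2 := hzT y1 ((mem_filter.mp hb1B).2.2 3 hPO |> fun h => by rwa [← hb1y])
      have h5 : y ≡ y1 [MOD 3] := by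
        unfold Nat.ModEq at t1 t2 ⊢
        omega
      rw [hby, hb1y, ← hl3, mul_comm 3 l']
      exact Nat.ModEq.mul_left' l' h5
    have hqb1 := hBq b1 hb1B
    -- the main identity
    have hmain : ∀ C : ℕ → ℤ, TD q m (PO q m) C → ((q : ℤ) - 1) * LL m A C =
        SJ J C b1 * ∑ b ∈ S3, LL m A (D b) + SJ J C m' * ∑ b ∈ S1, LL m A (D b) := by
      intro C hC
      rw [hsplit C hC]
      congr 1
      rw [mul_sum]
      refine sum_congr rfl fun b hb => ?_
      rw [H.SJ_eq hJ hC (hBq b (mem_filter.mp hb).1) hqb1 (hcong b hb)]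
    have hmain2 : ∀ C : ℕ → ℤ, TD q m (PO q m) C → ((q : ℤ) - 1) * LL m A C =
        SJ J C b1 * ∑ b ∈ S3, LL m A (D b) := by
      intro C hC
      have h1 := hmain C hC
      have h2 := hmain _ (hC.mul H.hPp H.m1c)
      rw [H.LL_neg hC, hY C hC, H.SJ_neg] at h2
      have h3 := H.SJ_three hJ hl3 hy1 (by rw [← hb1y]; exact hqb1) hC
      rw [← hb1y] at h3
      have h4 : SJ J C ((m - 1) * b1) = - SJ J C b1 := by linarith
      rw [h4] at h2
      linarith
    -- the coefficient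
    have hone : SJ J (D b1) b1 = 1 := by
      have hBs : ∀ κ ∈ J, IsB q m (κ * b1) := by
        intro κ hκ
        refine ⟨?_, ?_⟩
        · intro h
          rcases (Nat.Prime.dvd_mul hq).mp h with h | h
          · exact hJ.ndvd hq H.hqdm hκ h
          · exact hqb1 h
        · intro r hr
          have h1 := (mem_filter.mp hb1B).2.2 r hr
          obtain ⟨hr1, hr2, hr3⟩ := PO_prime hr
          unfold TT at h1 ⊢
          have hrm' : r ^ (m.factorization r) ∣ m' := by
            have h2 : r ^ (m.factorization r) ∣ q * m' := by rw [H.qm]; exact Nat.ordProj_dvd m r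
            refine Nat.Coprime.dvd_of_dvd_mul_left ?_ h2
            exact Nat.Coprime.pow_left _ ((Nat.coprime_primes hr1 hq).mpr hr3)
          have h2 : (κ * b1) % r ^ (m.factorization r) = b1 % r ^ (m.factorization r) := by
            have h3 := ((hJ.one κ hκ).mul_right b1).of_dvd hrm'
            rw [one_mul] at h3
            exact h3
          rw [h2]; exact h1
      have h1 : SJ J (D b1) b1 = ∑ κ ∈ J, if κ ≡ 1 [MOD q] then 1 else 0 := by
        unfold SJ
        refine sum_congr rfl fun κ hκ => ?_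
        rw [(hD b1).2 _ (hBs κ hκ)]
        have hlt : b1 < m := mem_range.mp (mem_filter.mp hb1B).1
        congr 1
        rw [eq_iff_iff]
        constructor
        · intro h
          have h2 : κ * b1 ≡ 1 * b1 [MOD m] := by
            rw [one_mul]
            unfold Nat.ModEq
            rw [h, Nat.mod_eq_of_lt hlt]
          exact Nat.ModEq.cancel_right_of_coprime
            ((Nat.Prime.coprime_iff_not_dvd hq).mpr hqb1) (h2.of_dvd H.hqdm)
        · intro h
          have h2 : κ ≡ 1 [MOD m] := by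
            rw [← H.qm]
            exact (Nat.modEq_and_modEq_iff_modEq_mul
              ((Nat.Prime.coprime_iff_not_dvd hq).mpr hqm')).mp ⟨h, hJ.one κ hκ⟩
          have h3 := h2.mul_right b1
          rw [one_mul] at h3
          unfold Nat.ModEq at h3
          rw [h3, Nat.mod_eq_of_lt hlt]
      rw [h1]
      obtain ⟨κ, hκ, hκ1⟩ := hJ.surj hq H.hqdm (c := 1)
        (fun h => hq.one_lt.ne' (Nat.dvd_one.mp h))
      rw [Finset.sum_eq_single κ]
      · rw [if_pos hκ1]
      · intro κ' hκ' hne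
        rw [if_neg]
        intro h
        exact hne (hJ.inj κ' hκ' κ hκ (h.trans hκ1.symm))
      · intro h; exact absurd hκ h
    have hN : ((q : ℤ) - 1) * LL m A (D b1) = ∑ b ∈ S3, LL m A (D b) := by
      rw [hmain2 _ (hD b1).1, hone, one_mul]
    have hfin : ∀ C : ℕ → ℤ, TD q m (PO q m) C → LL m A C = LL m A (D b1) * SJ J C b1 := by
      intro C hC
      apply mul_left_cancel₀ hq1
      rw [hmain2 C hC, ← hN]
      ring
    refine ⟨l, hl3, ?_⟩
    have hq2l : ¬ q ∣ 2 * l := by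
      intro h
      rcases (Nat.Prime.dvd_mul hq).mp h with h | h
      · have := Nat.le_of_dvd (by norm_num) h
        have := H.q3
        omega
      · exact hqm' (h.trans (Dvd.intro_left _ hl3))
    have hy12 : y1 % 3 = 1 ∨ y1 % 3 = 2 := by omega
    rcases hy12 with h | h
    · refine ⟨- LL m A (D b1), fun C hC => ?_⟩
      have h3 := H.SJ_three hJ hl3 hy1 (by rw [← hb1y]; exact hqb1) hC
      rw [← hb1y] at h3
      have h4 : SJ J C ((m - 1) * b1) = SJ J C (2 * l) := by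
        apply H.SJ_eq hJ hC (H.nq hqb1) hq2l
        apply Nat.ModEq.symm
        apply Nat.ModEq.add_left_cancel' b1
        rw [H.m1s]
        refine ((Nat.modEq_zero_iff_dvd).mpr ?_).trans
          ((Nat.modEq_zero_iff_dvd).mpr (H.mm.mul_right _)).symm
        rw [hb1y, ← hl3]
        have e : l * y1 + 2 * l = l * (y1 + 2) := by ring
        rw [e, mul_comm 3 l]
        exact Nat.mul_dvd_mul_left l (by omega)
      rw [h4] at h3
      rw [hfin C hC]
      have h5 : SJ J C b1 = - SJ J C (2 * l) := by linarith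
      rw [h5]; ring
    · refine ⟨LL m A (D b1), fun C hC => ?_⟩
      rw [hfin C hC]
      congr 1
      apply H.SJ_eq hJ hC hqb1 hq2l
      rw [hb1y, ← hl3, mul_comm 2 l, mul_comm 3 l]
      exact Nat.ModEq.mul_left' l (by unfold Nat.ModEq; omega)

end Ctx

end Pool.Agent.J4.H26.Od
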