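import Pool.Agent.J4.H26.Od.Ctx

/-!
The support of the functional of a short invariant multiset in the dual basis.
-/

set_option autoImplicit false
set_option linter.unusedSectionVars false

namespace Pool.Agent.J4.H26.Od

open Finset Pool.Agent.H916R2 Pool.Agent.Y2

lemma sum_le_one {J : Finset ℕ} {f : ℕ → ℚ} (h1 : ∀ x, f x ≤ 1)
    (hu : ∀ x ∈ J, ∀ y ∈ J, f x ≠ 0 → f y ≠ 0 → x = y) : ∑ x ∈ J, f x ≤ 1 := by
  by_cases h : ∃ x ∈ J, f x ≠ 0
  · obtain ⟨x, hx, hfx⟩ := h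
    rw [Finset.sum_eq_single x]
    · exact h1 x
    · intro y hy hne
      by_contra hfy
      exact hne (hu y hy x hx hfy hfx)
    · intro h2; exact absurd hx h2
  · push Not at h
    rw [sum_eq_zero h]; exact zero_le_one

lemma modEq_of_pows {M x y : ℕ} (h : ∀ p, p.Prime → p ∣ M → x ≡ y [MOD p ^ M.factorization p])
    (hM : M ≠ 0) : x ≡ y [MOD M] := by
  rw [← Int.natCast_modEq_iff, Int.modEq_iff_dvd]
  have key : (M : ℤ).natAbs ∣ ((y : ℤ) - x).natAbs := by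
    rw [Int.natAbs_natCast, Nat.dvd_iff_prime_pow_dvd_dvd]
    intro p k hp hpk
    by_cases hk : k = 0
    · subst hk; simp
    · have hpM : p ∣ M := (dvd_pow_self p hk).trans hpk
      have h1 := h p hp hpM
      rw [← Int.natCast_modEq_iff, Int.modEq_iff_dvd] at h1
      have h2 : p ^ k ∣ p ^ M.factorization p := by
        apply pow_dvd_pow
        exact (hp.pow_dvd_iff_le_factorization hM).mp hpk
      rw [← Int.natCast_dvd]
      exact (Int.natCast_dvd_natCast.mpr h2).trans h1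
  exact Int.natAbs_dvd_natAbs.mp key

/-- the excluded vertex -/
lemma exists_exc {m k0 M0 y l : ℕ} (hm : m ≠ 0) (hk : k0 * M0 = m) (hl : l.Prime) (hlM : l ∣ M0)
    (hy : ¬ l ∣ y) :
    ∃ z, z ≡ y [MOD l ^ (M0.factorization l - 1)] ∧ ¬ l ∣ z ∧
      (∀ y', TT l m (k0 * y') → ¬ y' ≡ z [MOD l ^ M0.factorization l]) ∧
      (M0.factorization l = 1 → (k0 / l ^ k0.factorization l) * z ≡ 1 [MOD l]) := by
  have hk0 : k0 ≠ 0 := by rintro rfl; rw [zero_mul] at hk; exact hm hk.symm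
  have hM0 : M0 ≠ 0 := by rintro rfl; rw [mul_zero] at hk; exact hm hk.symm
  set a := k0.factorization l with ha
  set v := M0.factorization l with hv
  set k1 := k0 / l ^ a with hk1
  have hk01 : l ^ a * k1 = k0 := Nat.ordProj_mul_ordCompl_eq_self k0 l
  have hlk1 : ¬ l ∣ k1 := Nat.not_dvd_ordCompl hl hk0
  have hv0 : 0 < v := hl.factorization_pos_of_dvd hM0 hlM
  have hfac : m.factorization l = a + v := by
    rw [← hk, Nat.factorization_mul hk0 hM0, Finsupp.add_apply]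
  clear_value a v k1
  have hmod : ∀ y', (k0 * y') % l ^ (a + v) = l ^ a * ((k1 * y') % l ^ v) := by
    intro y'
    rw [← hk01, mul_assoc, pow_add, Nat.mul_mod_mul_left]
  have hcop : Nat.Coprime k1 l := Nat.coprime_comm.mp ((Nat.Prime.coprime_iff_not_dvd hl).mpr hlk1)
  have hk1y : ¬ l ∣ k1 * y := by
    intro h
    rcases (Nat.Prime.dvd_mul hl).mp h with h | h
    · exact hlk1 h
    · exact hy h
  obtain ⟨w, hw⟩ : ∃ w, w = if v = 1 then 1 else (k1 * y) % l ^ (v - 1) := ⟨_, rfl⟩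
  have hwmod : w ≡ k1 * y [MOD l ^ (v - 1)] := by
    rw [hw]
    split_ifs with h
    · rw [h, Nat.sub_self, pow_zero]; exact Nat.modEq_one
    · exact Nat.mod_modEq _ _
  have hw0 : ¬ l ∣ w := by
    rw [hw]
    split_ifs with h
    · intro h1; exact hl.one_lt.ne' (Nat.dvd_one.mp h1)
    · intro h1
      have h2 : l ∣ l ^ (v - 1) := dvd_pow_self l (by omega)
      exact hk1y ((Nat.dvd_mod_iff h2).mp h1)
  have hwle : w ≤ l ^ (v - 1) := by
    rw [hw]
    split_ifs with h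
    · exact Nat.one_le_pow _ _ hl.pos
    · exact (Nat.mod_lt _ (pow_pos hl.pos _)).le
  have hpow : l ^ (v - 1) < l ^ v := Nat.pow_lt_pow_right hl.one_lt (by omega)
  have hwlt : w < l ^ v := lt_of_le_of_lt hwle hpow
  have hwpos : 0 < w := by
    rcases Nat.eq_zero_or_pos w with h | h
    · exact absurd (h ▸ dvd_zero l) hw0
    · exact h
  obtain ⟨z, _, hz⟩ := Nat.exists_mul_mod_eq_of_coprime w (Nat.Coprime.pow_right v hcop)
    (pow_ne_zero v hl.ne_zero)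
  have hz' : k1 * z ≡ w [MOD l ^ v] := hz
  refine ⟨z, ?_, ?_, ?_, ?_⟩
  · have h1 : k1 * z ≡ k1 * y [MOD l ^ (v - 1)] :=
      (hz'.of_dvd (pow_dvd_pow l (Nat.sub_le v 1))).trans hwmod
    exact Nat.ModEq.cancel_left_of_coprime
      (Nat.Coprime.pow_left _ (Nat.coprime_comm.mp hcop)) h1
  · intro h
    have h1 : l ∣ l ^ v := dvd_pow_self l hv0.ne'
    exact hw0 (((hz'.of_dvd h1).dvd_iff dvd_rfl).mp (h.mul_left k1))
  · intro y' hT h
    have h1 : (k1 * y') % l ^ v = w := by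
      have h2 : k1 * y' ≡ w [MOD l ^ v] := (h.mul_left k1).trans hz'
      have h3 : (k1 * y') % l ^ v = w % l ^ v := h2
      rw [h3, Nat.mod_eq_of_lt hwlt]
    unfold TT at hT
    rw [hfac, hmod, h1] at hT
    have hla : 0 < l ^ a := pow_pos hl.pos a
    rcases hT with hT | hT
    · have := Nat.mul_pos hla hwpos
      omega
    · have h2 : l ^ a * w ≤ l ^ (a + v - 1) := by
        rw [Nat.add_sub_assoc hv0, pow_add]
        exact Nat.mul_le_mul_left _ hwle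
      omega
  · intro h
    have h1 : w = 1 := by rw [hw, if_pos h]
    rw [h1, h, pow_one] at hz'
    exact hz'

namespace Ctx

variable {q k m' m : ℕ} {A : Multiset ℕ} (H : Ctx q k m' m A)

include H

lemma two_ndvd {l : ℕ} (_hl : l.Prime) (hlm : l ∣ m) : Nat.Coprime l 2 := by
  rw [Nat.coprime_comm, Nat.Prime.coprime_iff_not_dvd Nat.prime_two]
  intro h
  have h1 := H.hodd
  have h2 : 2 ∣ m := h.trans hlm
  omega

lemma good_bound {k0 M0 y : ℕ} {e : ℕ → ℕ} (hk0 : k0 * M0 = m) (hqk0 : ¬ q ∣ k0)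
    (HA : Adm q M0 y e)
    (hgood : 2 ≤ k ∨ ∃ l ∈ PO q M0, ¬ l ^ M0.factorization l ∣ y + e l)
    {J : Finset ℕ} (hJ1 : ∀ κ ∈ J, Nat.Coprime κ m ∧ κ ≡ 1 [MOD q ^ (k - 1) * m'])
    (hJ2 : ∀ κ ∈ J, ∀ κ' ∈ J, κ ≡ κ' [MOD q ^ k] → κ = κ') (x : ℕ) :
    ((J.val + J.val.map fun κ => (m - 1) * κ).map fun κ => |bx q M0 y e (κ * x)|).sum ≤ 1 := by
  have hq := H.hq
  have hk00 : k0 ≠ 0 := by rintro rfl; rw [zero_mul] at hk0; exact H.hm hk0.symm
  have hfq : M0.factorization q = k := by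
    have h1 := H.fac
    rw [← hk0, Nat.factorization_mul hk00 HA.hM, Finsupp.add_apply,
      Nat.factorization_eq_zero_of_not_dvd hqk0, zero_add] at h1
    exact h1
  have hqy : ¬ q ∣ y := by
    intro h
    have h3 : q ∣ Nat.gcd y M0 := Nat.dvd_gcd h HA.hqM
    rw [HA.cop] at h3
    exact hq.one_lt.ne' (Nat.dvd_one.mp h3)
  have hqK : q ∣ q ^ k := dvd_pow_self q H.hk.ne'
  have hM0m : M0 ∣ m := Dvd.intro_left _ hk0
  -- the two parts
  have hx1 : ∀ c, bx q M0 y e (c * x) ≠ 0 → c * x ≡ y [MOD q ^ k] := by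
    intro c hc
    have := (bx_ne HA hq hc).1
    rwa [hfq] at this
  have hxq : ∀ c, bx q M0 y e (c * x) ≠ 0 → Nat.Coprime (q ^ k) x := by
    intro c hc
    apply Nat.Coprime.pow_left
    rw [Nat.Prime.coprime_iff_not_dvd hq]
    intro h
    exact hqy ((((hx1 c hc).of_dvd hqK).dvd_iff dvd_rfl).mp (h.mul_left c))
  have hm1q : Nat.Coprime (q ^ k) (m - 1) :=
    Nat.coprime_comm.mp (Nat.Coprime.coprime_dvd_right (Dvd.intro _ H.hqm) H.m1c)
  have hS1 : ∑ κ ∈ J, |bx q M0 y e (κ * x)| ≤ 1 := by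
    apply sum_le_one (f := fun κ => |bx q M0 y e (κ * x)|)
    · intro κ; exact bx_abs HA hq _
    · intro κ hκ κ' hκ' h1 h2
      have h1' := abs_ne_zero.mp h1
      have h2' := abs_ne_zero.mp h2
      apply hJ2 κ hκ κ' hκ'
      exact Nat.ModEq.cancel_right_of_coprime (hxq κ h1') ((hx1 κ h1').trans (hx1 κ' h2').symm)
  have hS2 : ∑ κ ∈ J, |bx q M0 y e ((m - 1) * κ * x)| ≤ 1 := by
    apply sum_le_one (f := fun κ => |bx q M0 y e ((m - 1) * κ * x)|)
    · intro κ; exact bx_abs HA hq _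
    · intro κ hκ κ' hκ' h1 h2
      have h1' := abs_ne_zero.mp h1
      have h2' := abs_ne_zero.mp h2
      apply hJ2 κ hκ κ' hκ'
      have h3 := Nat.ModEq.cancel_right_of_coprime (hxq _ h1') ((hx1 _ h1').trans (hx1 _ h2').symm)
      exact Nat.ModEq.cancel_left_of_coprime hm1q h3
  have hsum : ((J.val + J.val.map fun κ => (m - 1) * κ).map
      fun κ => |bx q M0 y e (κ * x)|).sum =
      ∑ κ ∈ J, |bx q M0 y e (κ * x)| + ∑ κ ∈ J, |bx q M0 y e ((m - 1) * κ * x)| := by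
    rw [Multiset.map_add, Multiset.sum_add, Multiset.map_map]
    rfl
  rw [hsum]
  by_cases e1 : ∃ κ ∈ J, bx q M0 y e (κ * x) ≠ 0
  swap
  · push Not at e1
    have h0 : ∑ κ ∈ J, |bx q M0 y e (κ * x)| = 0 :=
      sum_eq_zero (fun κ hκ => by rw [e1 κ hκ, abs_zero])
    rw [h0, zero_add]
    exact hS2
  by_cases e2 : ∃ κ ∈ J, bx q M0 y e ((m - 1) * κ * x) ≠ 0
  swap
  · push Not at e2
    have h0 : ∑ κ ∈ J, |bx q M0 y e ((m - 1) * κ * x)| = 0 :=
      sum_eq_zero (fun κ hκ => by rw [e2 κ hκ, abs_zero])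
    rw [h0, add_zero]
    exact hS1
  exfalso
  obtain ⟨κ1, hκ1, hb1⟩ := e1
  obtain ⟨κ2, hκ2, hb2⟩ := e2
  obtain ⟨p1, r1⟩ := bx_ne HA hq hb1
  obtain ⟨p2, r2⟩ := bx_ne HA hq hb2
  rw [hfq] at p1 p2
  have key : ∀ n w1 w2 : ℕ, n ∣ q ^ (k - 1) * m' → κ1 * x ≡ w1 [MOD n] →
      (m - 1) * κ2 * x ≡ w2 [MOD n] → n ∣ w1 + w2 := by
    intro n w1 w2 hn h1 h2
    have hnm : n ∣ m := hn.trans H.dm
    have h3 : κ1 * x ≡ 1 * x [MOD n] := ((hJ1 κ1 hκ1).2.of_dvd hn).mul_right x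
    have h4 : κ2 * x ≡ 1 * x [MOD n] := ((hJ1 κ2 hκ2).2.of_dvd hn).mul_right x
    have h5 : w1 ≡ κ2 * x [MOD n] := (h1.symm.trans h3).trans h4.symm
    have h6 : w1 + w2 ≡ κ2 * x + (m - 1) * (κ2 * x) [MOD n] := by
      apply Nat.ModEq.add h5
      rw [← mul_assoc]
      exact h2.symm
    rw [H.m1s] at h6
    exact (Nat.modEq_zero_iff_dvd).mp (h6.trans ((Nat.modEq_zero_iff_dvd).mpr
      (hnm.mul_right _)))
  rcases hgood with hk2 | ⟨l, hl, hne⟩
  · have h1 := key (q ^ (k - 1)) y y (Dvd.intro _ rfl)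
      (p1.of_dvd (pow_dvd_pow q (Nat.sub_le k 1))) (p2.of_dvd (pow_dvd_pow q (Nat.sub_le k 1)))
    have h2 : q ∣ y + y := (dvd_pow_self q (by omega)).trans h1
    rw [← mul_two] at h2
    exact hqy ((H.two_ndvd hq H.hqdm).dvd_of_dvd_mul_right h2)
  · obtain ⟨hlq, hlp, hlM, _⟩ := mem_PO.mp hl
    have hlm : l ∣ m := hlM.trans hM0m
    have hlv : l ∣ l ^ M0.factorization l :=
      dvd_pow_self l (hlp.factorization_pos_of_dvd HA.hM hlM).ne'
    have hyl : ¬ l ∣ y := by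
      intro h
      have h3 : l ∣ Nat.gcd y M0 := Nat.dvd_gcd h hlM
      rw [HA.cop] at h3
      exact hlp.one_lt.ne' (Nat.dvd_one.mp h3)
    have hlm' : l ^ M0.factorization l ∣ q ^ (k - 1) * m' := by
      have h1 : l ^ M0.factorization l ∣ q ^ k * m' := by
        rw [H.hqm]; exact (Nat.ordProj_dvd M0 l).trans hM0m
      exact ((Nat.Coprime.pow _ _ ((Nat.coprime_primes hlp hq).mpr hlq)).dvd_of_dvd_mul_left
        h1).mul_left _
    rcases r1 l hl with a1 | a1 <;> rcases r2 l hl with a2 | a2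
    · have h1 := hlv.trans (key _ _ _ hlm' a1 a2)
      rw [← mul_two] at h1
      exact hyl ((H.two_ndvd hlp hlm).dvd_of_dvd_mul_right h1)
    · exact hne (key _ _ _ hlm' a1 a2)
    · have h1 := key _ _ _ hlm' a1 a2
      rw [add_comm] at h1
      exact hne h1
    · have h1 := hlv.trans (key _ _ _ hlm' a1 a2)
      rw [← mul_two] at h1
      exact HA.ndvd l hl ((H.two_ndvd hlp hlm).dvd_of_dvd_mul_right h1)

/-- Contradiction from a good box with a single vertex in the support. -/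
lemma contra {D : ℕ → ℕ → ℤ} (hD : ∀ b, TD q m (PO q m) (D b) ∧
    ∀ x, IsB q m x → D b x = if x % m = b then 1 else 0) {k0 M0 y : ℕ} {e : ℕ → ℕ}
    (hk0 : k0 * M0 = m) (hqk0 : ¬ q ∣ k0)
    (hmin : ∀ b ∈ BN q m, LL m A (D b) ≠ 0 → k0 ≤ Nat.gcd b m)
    (hb : k0 * y ∈ BN q m) (hbn : LL m A (D (k0 * y)) ≠ 0) (HA : Adm q M0 y e)
    (hgood : 2 ≤ k ∨ ∃ l ∈ PO q M0, ¬ l ^ M0.factorization l ∣ y + e l)
    (huniq : ∀ y', k0 * y' ∈ BN q m → LL m A (D (k0 * y')) ≠ 0 → Nat.Coprime y' M0 →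
      bx q M0 y e y' ≠ 0 → y' ≡ y [MOD M0]) : False := by
  have hm := H.hm
  have hk00 : k0 ≠ 0 := by rintro rfl; rw [zero_mul] at hk0; exact hm hk0.symm
  obtain ⟨J, hJ, hJ1, hJ2⟩ := H.exists_J
  obtain ⟨C, hC, hCk, hCs, hCb⟩ := exists_up H.hq k0 M0 hk00 HA.hM HA.hqM (by
      intro r hr hrk
      refine ⟨fun h => hqk0 (h ▸ hrk), ?_⟩
      have h1 := hr.two_le
      have h2 : r ≠ 2 := by
        rintro rfl
        have h3 : 2 ∣ m := hrk.trans (Dvd.intro _ hk0)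
        have := H.hodd
        omega
      omega) (bx q M0 y e) (bx_td HA H.hq) 1 (fun x hx => bx_gcd HA H.hq hx)
    (J.val + J.val.map fun κ => (m - 1) * κ) (by
      intro κ hκ
      have hk0m : k0 ∣ m := Dvd.intro _ hk0
      rcases Multiset.mem_add.mp hκ with h | h
      · exact Nat.Coprime.coprime_dvd_right hk0m (hJ1 κ h).1
      · obtain ⟨κ', hκ', rfl⟩ := Multiset.mem_map.mp h
        exact Nat.Coprime.coprime_dvd_right hk0m (Nat.Coprime.mul_left H.m1c (hJ1 κ' hκ').1))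
    1 zero_le_one (H.good_bound hk0 hqk0 HA hgood hJ1 hJ2)
  rw [hk0] at hC hCs
  have hlt := H.LL_lt hJ hJ1 hC hCb
  rw [H.LL_expand hD hC, Finset.sum_eq_single (k0 * y)] at hlt
  · rw [hCk, bx_self HA H.hq, one_mul] at hlt
    have h1 : (1 : ℚ) ≤ |((LL m A (D (k0 * y)) : ℤ) : ℚ)| := by
      have h2 := Int.one_le_abs hbn
      exact_mod_cast h2
    linarith
  · intro b hbB hne
    by_cases hn : LL m A (D b) = 0
    · rw [hn, Int.cast_zero, mul_zero]
    by_cases hc : C b = 0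
    · rw [hc, zero_mul]
    exfalso
    have h1 := hCs b hc
    rw [mul_one] at h1
    have h2 := hmin b hbB hn
    have h3 : Nat.gcd b m = k0 := le_antisymm (Nat.le_of_dvd (Nat.pos_of_ne_zero hk00) h1) h2
    obtain ⟨y', hy'⟩ : k0 ∣ b := h3 ▸ Nat.gcd_dvd_left b m
    subst hy'
    have hcop : Nat.Coprime y' M0 := by
      rw [← hk0, Nat.gcd_mul_left] at h3
      have h4 : k0 * Nat.gcd y' M0 = k0 * 1 := by rw [h3, mul_one]
      exact Nat.eq_of_mul_eq_mul_left (Nat.pos_of_ne_zero hk00) h4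
    have h5 := huniq y' hbB hn hcop (by rw [hCk] at hc; exact hc)
    apply hne
    have h6 : k0 * y' ≡ k0 * y [MOD k0 * M0] := Nat.ModEq.mul_left' k0 h5
    rw [hk0] at h6
    exact Nat.ModEq.eq_of_lt_of_lt h6 (mem_range.mp (mem_filter.mp hbB).1)
      (mem_range.mp (mem_filter.mp hb).1)
  · intro h; exact absurd hb h

/-- all prime power components -/
lemma modEq_all {M0 x y : ℕ} (hM : M0 ≠ 0) (hq0 : x ≡ y [MOD q ^ M0.factorization q])
    (h : ∀ l ∈ PO q M0, x ≡ y [MOD l ^ M0.factorization l]) : x ≡ y [MOD M0] := by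
  apply modEq_of_pows _ hM
  intro p hp hpM
  by_cases hpq : p = q
  · rw [hpq]; exact hq0
  · exact h p (mem_PO.mpr ⟨hpq, hp, hpM, hM⟩)

/-- First step: a minimal element of the support is bad. -/
lemma bad1 {D : ℕ → ℕ → ℤ} (hD : ∀ b, TD q m (PO q m) (D b) ∧
    ∀ x, IsB q m x → D b x = if x % m = b then 1 else 0) {k0 M0 y : ℕ}
    (hk0 : k0 * M0 = m) (hqk0 : ¬ q ∣ k0)
    (hmin : ∀ b ∈ BN q m, LL m A (D b) ≠ 0 → k0 ≤ Nat.gcd b m)
    (hb : k0 * y ∈ BN q m) (hbn : LL m A (D (k0 * y)) ≠ 0) (hcop : Nat.Coprime y M0) :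
    k = 1 ∧ ∃ e : ℕ → ℕ, Adm q M0 y e ∧ ∀ l ∈ PO q M0, M0.factorization l = 1 ∧
      l ∣ (k0 / l ^ k0.factorization l) * y + 1 := by
  classical
  have hm := H.hm
  have hk00 : k0 ≠ 0 := by rintro rfl; rw [zero_mul] at hk0; exact hm hk0.symm
  have hM0 : M0 ≠ 0 := by rintro rfl; rw [mul_zero] at hk0; exact hm hk0.symm
  have hM0m : M0 ∣ m := Dvd.intro_left _ hk0
  have hqM0 : q ∣ M0 := by
    have h1 := H.hqdm
    rw [← hk0] at h1
    exact ((Nat.Prime.dvd_mul H.hq).mp h1).resolve_left hqk0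
  have hyl : ∀ l ∈ PO q M0, ¬ l ∣ y := by
    intro l hl h
    obtain ⟨_, hlp, hlM, _⟩ := mem_PO.mp hl
    have h3 : l ∣ Nat.gcd y M0 := Nat.dvd_gcd h hlM
    rw [hcop] at h3
    exact hlp.one_lt.ne' (Nat.dvd_one.mp h3)
  have hex : ∀ l, ∃ z, l ∈ PO q M0 → z ≡ y [MOD l ^ (M0.factorization l - 1)] ∧ ¬ l ∣ z ∧
      (∀ y', TT l m (k0 * y') → ¬ y' ≡ z [MOD l ^ M0.factorization l]) ∧
      (M0.factorization l = 1 → (k0 / l ^ k0.factorization l) * z ≡ 1 [MOD l]) := by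
    intro l
    by_cases hl : l ∈ PO q M0
    · obtain ⟨_, hlp, hlM, _⟩ := mem_PO.mp hl
      obtain ⟨z, hz⟩ := exists_exc hm hk0 hlp hlM (hyl l hl)
      exact ⟨z, fun _ => hz⟩
    · exact ⟨0, fun h => absurd h hl⟩
  choose e he using hex
  have hPOm : ∀ l ∈ PO q M0, l ∈ PO q m := by
    intro l hl
    obtain ⟨h1, h2, h3, _⟩ := mem_PO.mp hl
    exact mem_PO.mpr ⟨h1, h2, h3.trans hM0m, hm⟩
  have hTT : ∀ y', k0 * y' ∈ BN q m → ∀ l ∈ PO q M0, TT l m (k0 * y') := by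
    intro y' hy' l hl
    exact (mem_filter.mp hy').2.2 l (hPOm l hl)
  have HA : Adm q M0 y e := by
    refine ⟨hM0, hqM0, hcop, fun l hl => (he l hl).1, fun l hl => (he l hl).2.1, fun l hl => ?_⟩
    intro h
    exact (he l hl).2.2.1 y (hTT y hb l hl) h.symm
  have hng : ¬ (2 ≤ k ∨ ∃ l ∈ PO q M0, ¬ l ^ M0.factorization l ∣ y + e l) := by
    intro hgood
    refine H.contra hD hk0 hqk0 hmin hb hbn HA hgood ?_
    intro y' hy' _ _ hbx
    obtain ⟨h1, h2⟩ := bx_ne HA H.hq hbx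
    refine H.modEq_all hM0 h1 fun l hl => ?_
    rcases h2 l hl with h3 | h3
    · exact h3
    · exact absurd h3 ((he l hl).2.2.1 y' (hTT y' hy' l hl))
  rw [not_or] at hng
  obtain ⟨hk2, hall⟩ := hng
  push Not at hall
  refine ⟨by have := H.hk; omega, e, HA, fun l hl => ?_⟩
  obtain ⟨hlq, hlp, hlM, _⟩ := mem_PO.mp hl
  have hlm : l ∣ m := hlM.trans hM0m
  have hv0 : 0 < M0.factorization l := hlp.factorization_pos_of_dvd hM0 hlM
  have hdvd := hall l hl
  have hl2 : l ∣ y + e l := (dvd_pow_self l hv0.ne').trans hdvd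
  have hv1 : M0.factorization l = 1 := by
    by_contra hne
    have h1 : l ∣ l ^ (M0.factorization l - 1) := dvd_pow_self l (by omega)
    have h2 := ((he l hl).1.of_dvd h1).add_left y
    have h3 : l ∣ y + y := ((h2.dvd_iff dvd_rfl).mp hl2)
    rw [← mul_two] at h3
    exact hyl l hl ((H.two_ndvd hlp hlm).dvd_of_dvd_mul_right h3)
  refine ⟨hv1, ?_⟩
  have h1 := (he l hl).2.2.2 hv1
  have h2 : l ∣ (k0 / l ^ k0.factorization l) * (y + e l) := hl2.mul_left _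
  rw [mul_add] at h2
  exact ((h1.add_left _).dvd_iff dvd_rfl).mp h2

/-- Second step: only the prime three. -/
lemma bad2 {D : ℕ → ℕ → ℤ} (hD : ∀ b, TD q m (PO q m) (D b) ∧
    ∀ x, IsB q m x → D b x = if x % m = b then 1 else 0) {k0 M0 y : ℕ}
    (hk0 : k0 * M0 = m) (hqk0 : ¬ q ∣ k0)
    (hmin : ∀ b ∈ BN q m, LL m A (D b) ≠ 0 → k0 ≤ Nat.gcd b m)
    (hb : k0 * y ∈ BN q m) (hbn : LL m A (D (k0 * y)) ≠ 0) (hcop : Nat.Coprime y M0) :
    k = 1 ∧ M0 ∣ 3 * q := by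
  classical
  obtain ⟨hk1, e, HA, hall⟩ := H.bad1 hD hk0 hqk0 hmin hb hbn hcop
  refine ⟨hk1, ?_⟩
  have hm := H.hm
  have hk00 : k0 ≠ 0 := by rintro rfl; rw [zero_mul] at hk0; exact hm hk0.symm
  have hM0 := HA.hM
  have hM0m : M0 ∣ m := Dvd.intro_left _ hk0
  have h3 : ∀ l ∈ PO q M0, l = 3 := by
    intro l0 hl0
    by_contra hne
    obtain ⟨hlq, hlp, hlM, _⟩ := mem_PO.mp hl0
    have hlm : l0 ∣ m := hlM.trans hM0m
    have hl2 := H.two_ndvd hlp hlm
    have hyl : ¬ l0 ∣ y := by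
      intro h
      have h3 : l0 ∣ Nat.gcd y M0 := Nat.dvd_gcd h hlM
      rw [HA.cop] at h3
      exact hlp.one_lt.ne' (Nat.dvd_one.mp h3)
    let e' : ℕ → ℕ := fun l => if l = l0 then 2 * y else e l
    have HA' : Adm q M0 y e' := by
      refine ⟨hM0, HA.hqM, hcop, fun l hl => ?_, fun l hl => ?_, fun l hl => ?_⟩
      · by_cases h : l = l0
        · rw [h, (hall l0 hl0).1, Nat.sub_self, pow_zero]; exact Nat.modEq_one
        · simp only [e', if_neg h]; exact HA.coset l hl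
      · by_cases h : l = l0
        · simp only [e', if_pos h]
          rw [h]
          intro h1
          exact hyl (hl2.dvd_of_dvd_mul_left h1)
        · simp only [e', if_neg h]; exact HA.ndvd l hl
      · by_cases h : l = l0
        · simp only [e', if_pos h]
          rw [h, (hall l0 hl0).1, pow_one]
          intro h1
          have h4 : y + y ≡ y + 0 [MOD l0] := by rw [← two_mul, add_zero]; exact h1
          exact hyl ((Nat.modEq_zero_iff_dvd).mp (Nat.ModEq.add_left_cancel' y h4))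
        · simp only [e', if_neg h]; exact HA.ne l hl
    refine H.contra hD hk0 hqk0 hmin hb hbn HA' (Or.inr ⟨l0, hl0, ?_⟩) ?_
    · simp only [e', if_true]
      rw [(hall l0 hl0).1, pow_one]
      intro h1
      have h4 : l0 ∣ 3 * y := by
        have : 3 * y = y + 2 * y := by ring
        rwa [this]
      rcases (Nat.Prime.dvd_mul hlp).mp h4 with h5 | h5
      · exact hne ((Nat.prime_dvd_prime_iff_eq hlp Nat.prime_three).mp h5)
      · exact hyl h5
    · intro y' hy' hn' hcop' hbx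
      obtain ⟨p1, p2⟩ := bx_ne HA' H.hq hbx
      obtain ⟨_, _, _, hall'⟩ := H.bad1 hD hk0 hqk0 hmin hy' hn' hcop'
      refine H.modEq_all hM0 p1 fun l hl => ?_
      obtain ⟨_, hlp', hlM', _⟩ := mem_PO.mp hl
      rw [(hall l hl).1, pow_one]
      have h4 := (hall l hl).2
      have h5 := (hall' l hl).2
      set k1 := k0 / l ^ k0.factorization l with hk1
      have h6 : k1 * y' ≡ k1 * y [MOD l] := by
        have h7 : k1 * y' + 1 ≡ k1 * y + 1 [MOD l] :=
          ((Nat.modEq_zero_iff_dvd).mpr h5).trans ((Nat.modEq_zero_iff_dvd).mpr h4).symm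
        exact Nat.ModEq.add_right_cancel' 1 h7
      refine Nat.ModEq.cancel_left_of_coprime ?_ h6
      exact (Nat.Prime.coprime_iff_not_dvd hlp').mpr (Nat.not_dvd_ordCompl hlp' hk00)
  -- the level
  have hfq : M0.factorization q = 1 := by
    have h1 := H.fac
    rw [← hk0, Nat.factorization_mul hk00 hM0, Finsupp.add_apply,
      Nat.factorization_eq_zero_of_not_dvd hqk0, zero_add] at h1
    rw [h1, hk1]
  rw [Nat.dvd_iff_prime_pow_dvd_dvd]
  intro p j hp hpj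
  by_cases hj : j = 0
  · subst hj; simp
  have hpM : p ∣ M0 := (dvd_pow_self p hj).trans hpj
  have hj1 : j ≤ M0.factorization p := (hp.pow_dvd_iff_le_factorization hM0).mp hpj
  by_cases hpq : p = q
  · subst hpq
    rw [hfq] at hj1
    have : j = 1 := by omega
    rw [this, pow_one]
    exact Dvd.intro_left _ rfl
  · have hmem : p ∈ PO q M0 := mem_PO.mpr ⟨hpq, hp, hpM, hM0⟩
    rw [(hall p hmem).1] at hj1
    have : j = 1 := by omega
    rw [this, pow_one, h3 p hmem]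
    exact Dvd.intro _ rfl

/-- **The support**: nonzero coefficients only at the levels `q` and `3 * q`, and only if
`k = 1`. -/
theorem supp {D : ℕ → ℕ → ℤ} (hD : ∀ b, TD q m (PO q m) (D b) ∧
    ∀ x, IsB q m x → D b x = if x % m = b then 1 else 0) {b : ℕ} (hb : b ∈ BN q m)
    (hbn : LL m A (D b) ≠ 0) : k = 1 ∧ ∃ g, Nat.gcd b m = g ∧ (g * q = m ∨ g * (3 * q) = m) := by
  classical
  have hm := H.hm
  let S := (BN q m).filter (fun b => LL m A (D b) ≠ 0)
  have hS : S.Nonempty := ⟨b, mem_filter.mpr ⟨hb, hbn⟩⟩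
  obtain ⟨b0, hb0, hmin⟩ := exists_min_image S (fun b => Nat.gcd b m) hS
  obtain ⟨hb0B, hb0n⟩ := mem_filter.mp hb0
  set k0 := Nat.gcd b0 m with hk0
  have hqk : ∀ c ∈ BN q m, ¬ q ∣ Nat.gcd c m := fun c hc h =>
    (mem_filter.mp hc).2.1 (h.trans (Nat.gcd_dvd_left _ _))
  obtain ⟨M0, hM0⟩ : k0 ∣ m := Nat.gcd_dvd_right _ _
  obtain ⟨y, hy⟩ : k0 ∣ b0 := Nat.gcd_dvd_left _ _
  have hk00 : k0 ≠ 0 := by
    intro h
    rw [h, zero_mul] at hM0
    exact hm hM0
  have hcop : Nat.Coprime y M0 := by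
    have h3 : Nat.gcd (k0 * y) (k0 * M0) = k0 := by rw [← hy, ← hM0]
    rw [Nat.gcd_mul_left] at h3
    have h4 : k0 * Nat.gcd y M0 = k0 * 1 := by rw [h3, mul_one]
    exact Nat.eq_of_mul_eq_mul_left (Nat.pos_of_ne_zero hk00) h4
  obtain ⟨hk1, hdvd⟩ := H.bad2 hD hM0.symm (hqk b0 hb0B) (fun c hc hn =>
    hmin c (mem_filter.mpr ⟨hc, hn⟩)) (by rw [← hy]; exact hb0B) (by rw [← hy]; exact hb0n) hcop
  refine ⟨hk1, _, rfl, ?_⟩
  have hle : k0 ≤ Nat.gcd b m := hmin b (mem_filter.mpr ⟨hb, hbn⟩)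
  obtain ⟨M, hM⟩ : Nat.gcd b m ∣ m := Nat.gcd_dvd_right _ _
  have hqM : q ∣ M := by
    have h1 := H.hqdm
    rw [hM] at h1
    exact ((Nat.Prime.dvd_mul H.hq).mp h1).resolve_left (hqk b hb)
  obtain ⟨t, ht⟩ := hqM
  have hM0le : M0 ≤ 3 * q := Nat.le_of_dvd (by have := H.hq.pos; omega) hdvd
  have hg0 : 0 < Nat.gcd b m := Nat.gcd_pos_of_pos_right _ (Nat.pos_of_ne_zero hm)
  have hMle : M ≤ M0 := by
    by_contra hlt
    push Not at hlt
    have h1 : k0 * M0 < Nat.gcd b m * M := by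
      calc k0 * M0 ≤ Nat.gcd b m * M0 := Nat.mul_le_mul_right _ hle
        _ < Nat.gcd b m * M := Nat.mul_lt_mul_of_pos_left hlt hg0
    rw [← hM, ← hM0] at h1
    exact lt_irrefl _ h1
  have ht3 : t ≤ 3 := by
    have h1 : q * t ≤ q * 3 := by rw [← ht]; omega
    exact Nat.le_of_mul_le_mul_left h1 H.hq.pos
  have htodd : t % 2 = 1 := by
    have h1 := H.hodd
    rw [hM, ht] at h1
    rw [← Nat.odd_iff] at h1 ⊢
    exact h1.of_dvd_nat ((Dvd.intro_left _ rfl : t ∣ q * t).mul_left _)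
  have : t = 1 ∨ t = 3 := by omega
  rcases this with h | h
  · left
    conv_rhs => rw [hM, ht, h, mul_one]
  · right
    conv_rhs => rw [hM, ht, h, mul_comm q 3]

end Ctx

end Pool.Agent.J4.H26.Od
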