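import Pool.Agent.J4.H26.Od.Up

/-!
The box functions.
-/

set_option autoImplicit false
set_option linter.unusedSectionVars false

namespace Pool.Agent.J4.H26.Od

open Finset Pool.Agent.H916R2 Pool.Agent.Y2

/-- the factor of the box function at `l` -/
def fc (M y l z x : ℕ) : ℚ :=
  (if x ≡ y [MOD l ^ M.factorization l] then 1 else 0) -
    (if x ≡ z [MOD l ^ M.factorization l] then 1 else 0)

/-- the box function -/
def bx (q M y : ℕ) (e : ℕ → ℕ) (x : ℕ) : ℚ :=
  (if x ≡ y [MOD q ^ M.factorization q] then 1 else 0) * ∏ l ∈ PO q M, fc M y l (e l) x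

/-- admissible second vertices -/
structure Adm (q M y : ℕ) (e : ℕ → ℕ) : Prop where
  hM : M ≠ 0
  hqM : q ∣ M
  cop : Nat.Coprime y M
  coset : ∀ l ∈ PO q M, e l ≡ y [MOD l ^ (M.factorization l - 1)]
  ndvd : ∀ l ∈ PO q M, ¬ l ∣ e l
  ne : ∀ l ∈ PO q M, ¬ e l ≡ y [MOD l ^ M.factorization l]

lemma exists_shift {M l y z : ℕ} (hM : M ≠ 0) (hl : l.Prime) (hlM : l ∣ M)
    (h : z ≡ y [MOD l ^ (M.factorization l - 1)]) :
    ∃ t, y + t * (M / l) ≡ z [MOD l ^ M.factorization l] := by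
  obtain ⟨f, u, hf, hMu, hlu, hMl⟩ := decomp hM hl hlM
  rw [hf, Nat.add_sub_cancel] at h
  rw [hf, hMl]
  have h1 : y ≤ z + l ^ (f + 1) * y := by
    have : 1 * y ≤ l ^ (f + 1) * y := Nat.mul_le_mul_right _ (Nat.one_le_pow _ _ hl.pos)
    omega
  have h2 : z + l ^ (f + 1) * y ≡ y [MOD l ^ f] := by
    have h3 : z + l ^ (f + 1) * y ≡ z + 0 [MOD l ^ f] := by
      apply Nat.ModEq.add_left
      exact (Nat.modEq_zero_iff_dvd).mpr ((pow_dvd_pow l (Nat.le_succ f)).mul_right y)
    rw [add_zero] at h3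
    exact h3.trans h
  have h4 : l ^ f ∣ z + l ^ (f + 1) * y - y := (Nat.modEq_iff_dvd' h1).mp h2.symm
  obtain ⟨w, hw⟩ := h4
  obtain ⟨t, _, ht⟩ := Nat.exists_mul_mod_eq_of_coprime w
    (Nat.coprime_comm.mp ((Nat.Prime.coprime_iff_not_dvd hl).mpr hlu)) hl.ne_zero
  have h5 : u * t ≡ w [MOD l] := ht
  refine ⟨t, ?_⟩
  have h6 : l ^ f * (u * t) ≡ l ^ f * w [MOD l ^ f * l] := Nat.ModEq.mul_left' _ h5
  rw [← pow_succ] at h6
  have h7 : y + t * (l ^ f * u) ≡ y + l ^ f * w [MOD l ^ (f + 1)] := by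
    apply Nat.ModEq.add_left
    rw [show t * (l ^ f * u) = l ^ f * (u * t) by ring]
    exact h6
  refine h7.trans ?_
  have h8 : y + l ^ f * w = z + l ^ (f + 1) * y := by omega
  rw [h8]
  have h9 : z + l ^ (f + 1) * y ≡ z + 0 [MOD l ^ (f + 1)] := by
    apply Nat.ModEq.add_left
    exact (Nat.modEq_zero_iff_dvd).mpr (Dvd.intro _ rfl)
  rwa [add_zero] at h9

lemma pow_dvd_div {M l p : ℕ} (hl : l.Prime) (hlM : l ∣ M) (hp : p.Prime) (hpl : p ≠ l) :
    p ^ M.factorization p ∣ M / l := by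
  have h1 : p ^ (M.factorization p) ∣ l * (M / l) := by
    rw [Nat.mul_div_cancel' hlM]; exact Nat.ordProj_dvd M p
  exact (Nat.Coprime.pow_left _ ((Nat.coprime_primes hp hl).mpr hpl)).dvd_of_dvd_mul_left h1

lemma modEq_add_mul {n a b i : ℕ} (h : n ∣ b) : a + i * b ≡ a [MOD n] := by
  have h1 : a + i * b ≡ a + 0 [MOD n] :=
    Nat.ModEq.add_left a ((Nat.modEq_zero_iff_dvd).mpr (h.mul_left i))
  rwa [add_zero] at h1

lemma ite_congr_mod {n x x' y : ℕ} (h : x ≡ x' [MOD n]) :
    (if x ≡ y [MOD n] then (1 : ℚ) else 0) = if x' ≡ y [MOD n] then 1 else 0 := by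
  have : x ≡ y [MOD n] ↔ x' ≡ y [MOD n] := ⟨fun h1 => h.symm.trans h1, fun h1 => h.trans h1⟩
  simp only [this]

lemma fc_congr {M y l z x x' : ℕ} (h : x ≡ x' [MOD l ^ M.factorization l]) :
    fc M y l z x = fc M y l z x' := by
  unfold fc
  rw [ite_congr_mod h, ite_congr_mod h]

section

variable {q M y : ℕ} {e : ℕ → ℕ} (H : Adm q M y e) (hq : q.Prime)

include H hq

lemma bx_td : TD q M (PO q M) (bx q M y e) := by
  have hM := H.hM
  refine ⟨?_, ?_, ?_⟩
  · intro x z hxz
    unfold bx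
    rw [ite_congr_mod (hxz.of_dvd (Nat.ordProj_dvd M q))]
    congr 1
    exact prod_congr rfl fun l _ => fc_congr (hxz.of_dvd (Nat.ordProj_dvd M l))
  · intro _ n hn
    unfold bx
    rw [if_neg, zero_mul]
    intro h
    have h1 : q ∣ q ^ M.factorization q :=
      dvd_pow_self q (hq.factorization_pos_of_dvd hM H.hqM).ne'
    have h2 : q ∣ y := ((h.of_dvd h1).dvd_iff dvd_rfl).mp hn
    have h3 : q ∣ Nat.gcd y M := Nat.dvd_gcd h2 H.hqM
    rw [H.cop] at h3
    exact hq.one_lt.ne' (Nat.dvd_one.mp h3)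
  · intro l hl n
    obtain ⟨hlq, hlp, hlM, _⟩ := mem_PO.mp hl
    have hlv : l ∣ l ^ M.factorization l :=
      dvd_pow_self l (hlp.factorization_pos_of_dvd hM hlM).ne'
    have hyl : ¬ l ∣ y := by
      intro h
      have h3 : l ∣ Nat.gcd y M := Nat.dvd_gcd h hlM
      rw [H.cop] at h3
      exact hlp.one_lt.ne' (Nat.dvd_one.mp h3)
    have hzero : bx q M y e (l * n) = 0 := by
      unfold bx
      rw [prod_eq_zero hl, mul_zero]
      unfold fc
      rw [if_neg, if_neg, sub_zero]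
      · intro h
        exact H.ndvd l hl (((h.of_dvd hlv).dvd_iff dvd_rfl).mp (Dvd.intro _ rfl))
      · intro h
        exact hyl (((h.of_dvd hlv).dvd_iff dvd_rfl).mp (Dvd.intro _ rfl))
    rw [hzero]
    let R : ℕ → ℚ := fun x => (if x ≡ y [MOD q ^ M.factorization q] then 1 else 0) *
      ∏ p ∈ (PO q M).erase l, fc M y p (e p) x
    have hR : ∀ x i, R (x + i * (M / l)) = R x := by
      intro x i
      change _ * _ = _ * _
      rw [ite_congr_mod (modEq_add_mul (pow_dvd_div hlp hlM hq (Ne.symm hlq)))]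
      congr 1
      refine prod_congr rfl fun p hp => ?_
      have hpl := (mem_erase.mp hp).1
      have hpp := (mem_PO.mp (mem_erase.mp hp).2).2.1
      exact fc_congr (modEq_add_mul (pow_dvd_div hlp hlM hpp hpl))
    have hRper : ∀ x z, x ≡ z [MOD M] → R x = R z := by
      intro x z hxz
      change _ * _ = _ * _
      rw [ite_congr_mod (hxz.of_dvd (Nat.ordProj_dvd M q))]
      congr 1
      exact prod_congr rfl fun p _ => fc_congr (hxz.of_dvd (Nat.ordProj_dvd M p))
    have hbx : ∀ x, bx q M y e x = R x * (if x ≡ y [MOD l ^ M.factorization l] then 1 else 0) -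
        R x * (if x ≡ e l [MOD l ^ M.factorization l] then 1 else 0) := by
      intro x
      have h1 : ∏ p ∈ PO q M, fc M y p (e p) x =
          fc M y l (e l) x * ∏ p ∈ (PO q M).erase l, fc M y p (e p) x :=
        (mul_prod_erase _ _ hl).symm
      unfold bx
      rw [h1]
      change _ = (_ * _) * _ - (_ * _) * _
      rw [fc]
      ring
    obtain ⟨t, ht⟩ := exists_shift hM hlp hlM (H.coset l hl)
    let Fe : ℕ → ℚ := fun x => R x * (if x ≡ e l [MOD l ^ M.factorization l] then 1 else 0)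
    have hFe : ∀ x, Fe (x + t * (M / l)) =
        R x * (if x ≡ y [MOD l ^ M.factorization l] then 1 else 0) := by
      intro x
      change R _ * _ = _
      rw [hR]
      have : x + t * (M / l) ≡ e l [MOD l ^ M.factorization l] ↔
          x ≡ y [MOD l ^ M.factorization l] := by
        constructor
        · intro h
          exact Nat.ModEq.add_right_cancel' _ (h.trans ht.symm)
        · intro h
          exact (h.add_right _).trans ht
      simp only [this]
    have hFper : ∀ x z, x ≡ z [MOD M] → Fe x = Fe z := by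
      intro x z hxz
      change R _ * _ = R _ * _
      rw [hRper x z hxz, ite_congr_mod (hxz.of_dvd (Nat.ordProj_dvd M l))]
    have h1 : ∑ i ∈ range l, bx q M y e (n + i * (M / l)) =
        ∑ i ∈ range l, Fe (n + t * (M / l) + i * (M / l)) -
        ∑ i ∈ range l, Fe (n + i * (M / l)) := by
      rw [← sum_sub_distrib]
      refine sum_congr rfl fun i _ => ?_
      rw [hbx, show n + t * (M / l) + i * (M / l) = n + i * (M / l) + t * (M / l) by ring, hFe]
    rw [h1, coset_shift_mul hlp.pos (Nat.mul_div_cancel' hlM) hFper, sub_self]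

lemma bx_ne {x : ℕ} (hx : bx q M y e x ≠ 0) : x ≡ y [MOD q ^ M.factorization q] ∧
    ∀ l ∈ PO q M, x ≡ y [MOD l ^ M.factorization l] ∨ x ≡ e l [MOD l ^ M.factorization l] := by
  unfold bx at hx
  constructor
  · by_contra h
    rw [if_neg h, zero_mul] at hx
    exact hx rfl
  · intro l hl
    by_contra h
    rw [not_or] at h
    apply hx
    rw [prod_eq_zero hl, mul_zero]
    unfold fc
    rw [if_neg h.1, if_neg h.2, sub_zero]

lemma bx_gcd {x : ℕ} (hx : bx q M y e x ≠ 0) : Nat.gcd x M ∣ 1 := by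
  obtain ⟨h1, h2⟩ := bx_ne H hq hx
  by_contra hne
  obtain ⟨p, hp, hpd⟩ := Nat.exists_prime_and_dvd (n := Nat.gcd x M)
    (fun h => hne (by rw [h]))
  have hpx : p ∣ x := hpd.trans (Nat.gcd_dvd_left _ _)
  have hpM : p ∣ M := hpd.trans (Nat.gcd_dvd_right _ _)
  have hpv : p ∣ p ^ M.factorization p :=
    dvd_pow_self p (hp.factorization_pos_of_dvd H.hM hpM).ne'
  have hyp : ¬ p ∣ y := by
    intro h
    have h3 : p ∣ Nat.gcd y M := Nat.dvd_gcd h hpM
    rw [H.cop] at h3
    exact hp.one_lt.ne' (Nat.dvd_one.mp h3)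
  by_cases hpq : p = q
  · subst hpq
    exact hyp (((h1.of_dvd hpv).dvd_iff dvd_rfl).mp hpx)
  · have hmem : p ∈ PO q M := mem_PO.mpr ⟨hpq, hp, hpM, H.hM⟩
    rcases h2 p hmem with h | h
    · exact hyp (((h.of_dvd hpv).dvd_iff dvd_rfl).mp hpx)
    · exact H.ndvd p hmem (((h.of_dvd hpv).dvd_iff dvd_rfl).mp hpx)

lemma bx_self : bx q M y e y = 1 := by
  unfold bx
  rw [if_pos (Nat.ModEq.refl y), one_mul]
  apply prod_eq_one
  intro l hl
  unfold fc
  rw [if_pos (Nat.ModEq.refl y), if_neg, sub_zero]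
  intro h
  exact H.ne l hl h.symm

lemma bx_abs (x : ℕ) : |bx q M y e x| ≤ 1 := by
  unfold bx
  rw [abs_mul, Finset.abs_prod]
  apply mul_le_one₀
  · split_ifs <;> simp
  · exact prod_nonneg fun _ _ => abs_nonneg _
  · apply prod_le_one
    · exact fun _ _ => abs_nonneg _
    · intro l _
      unfold fc
      split_ifs <;> simp

end

end Pool.Agent.J4.H26.Od
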