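import Pool.Agent.J4.H26.Od.Inv
import Pool.Agent.Y2.Cases
import Pool.Agent.Y2.Cv.Families

/-!
Comparison of a short invariant multiset with a multiset of level `3 * q`.
-/

set_option autoImplicit false
set_option linter.unusedSectionVars false

namespace Pool.Agent.J4.H26.Od

open Finset Pool.Agent.H916R2 Pool.Agent.Y2

/-- the same sums for all the integral odd distributions away from `q` -/
def Same (q m : ℕ) (A B : Multiset ℕ) : Prop :=
  ∀ C : ℕ → ℤ, TD q m (PO q m) C → (∀ x y, m ∣ x + y → C y = - C x) →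
    (A.map C).sum = (B.map C).sum

/-- the same sums for all odd distributions -/
theorem Same.all {q m : ℕ} (hq : q.Prime) (hqm : q ∣ m) (hm : m ≠ 0)
    (hq2 : 2 < q ^ (m.factorization q)) {A B : Multiset ℕ} (hA : ∀ a ∈ A, ¬ q ∣ a)
    (hB : ∀ b ∈ B, ¬ q ∣ b) (h : Same q m A B) (Q : Type) [AddCommGroup Q] (c : ZMod m → Q)
    (hc : OddDist c) :
    (A.map fun a : ℕ => c (a : ZMod m)).sum = (B.map fun b : ℕ => c (b : ZMod m)).sum := by
  classical
  have hTD : TD q m (PO q m) (fun n : ℕ => if q ∣ n then (0 : Q) else c (n : ZMod m)) := by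
    refine ⟨?_, ?_, ?_⟩
    · intro x y hxy
      have h1 : q ∣ x ↔ q ∣ y := (hxy.of_dvd hqm).dvd_iff dvd_rfl
      have h2 : (x : ZMod m) = (y : ZMod m) := (ZMod.natCast_eq_natCast_iff _ _ _).mpr hxy
      simp only [h1, h2]
    · intro _ n hn
      simp only [if_pos hn]
    · intro r hr n
      obtain ⟨hr1, hr2, hr3⟩ := PO_prime hr
      have hqmr : q ∣ m / r := dvd_div hq hqm hr1 hr2 hr3
      have h1 : ∀ i, (q ∣ n + i * (m / r) ↔ q ∣ n) := fun i => Nat.dvd_add_left (hqmr.mul_left i)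
      have h2 : q ∣ r * n ↔ q ∣ n := by
        constructor
        · intro h
          rcases (Nat.Prime.dvd_mul hq).mp h with h | h
          · exact absurd ((Nat.prime_dvd_prime_iff_eq hq hr1).mp h) (Ne.symm hr3)
          · exact h
        · intro h; exact h.mul_left r
      simp only [h1, h2]
      by_cases hqn : q ∣ n
      · simp [hqn]
      · simp only [hqn, if_false]
        have h3 := hc.dist r (m / r) hr1 (Nat.mul_div_cancel' hr2) (n : ZMod m)
        push_cast
        exact h3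
  let I : Finset (ℕ ⊕ ℕ) := A.toFinset.disjSum B.toFinset
  let w : ℕ ⊕ ℕ → ℤ := fun x => Sum.elim (fun b => (A.count b : ℤ)) (fun b => -(B.count b : ℤ)) x
  let a : ℕ ⊕ ℕ → ℕ := fun x => Sum.elim (fun b => b) (fun b => b) x
  have hcount : ∀ (R : Type) [AddCommGroup R] (A : Multiset ℕ) (g : ℕ → R),
      ∑ b ∈ A.toFinset, (A.count b : ℤ) • g b = (A.map g).sum := by
    intro R _ A g
    rw [Finset.sum_multiset_map_count]
    exact sum_congr rfl fun b _ => natCast_zsmul _ _
  have hsum : ∀ (R : Type) [AddCommGroup R] (g : ℕ → R),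
      ∑ i ∈ I, w i • g (a i) = (A.map g).sum - (B.map g).sum := by
    intro R _ g
    rw [Finset.sum_disjSum]
    simp only [w, a, Sum.elim_inl, Sum.elim_inr, neg_smul, sum_neg_distrib]
    rw [hcount, hcount]
    abel
  have h1 := univ_zero hq hqm hq2 hm I w a
    (fun C hC hodd => by
      have h2 := hsum ℤ C
      simp only [smul_eq_mul] at h2
      rw [h2, h C hC hodd, sub_self]) hTD
    (fun x y hxy => by
      have h3 : q ∣ x ↔ q ∣ y := by
        constructor
        · intro h; exact (Nat.dvd_add_right h).mp (dvd_trans hqm hxy)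
        · intro h; exact (Nat.dvd_add_left h).mp (dvd_trans hqm hxy)
      have h4 : (y : ZMod m) = -(x : ZMod m) := by
        have := (ZMod.natCast_eq_zero_iff (x + y) m).mpr hxy
        push_cast at this
        exact (neg_eq_of_add_eq_zero_right this).symm
      simp only [h3, h4, hc.neg]
      split_ifs <;> simp)
  replace h1 := (hsum Q (fun n : ℕ => if q ∣ n then (0 : Q) else c (n : ZMod m))).symm.trans h1
  rw [sub_eq_zero] at h1
  have e1 : ∀ D : Multiset ℕ, (∀ a ∈ D, ¬ q ∣ a) →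
      (D.map fun n : ℕ => if q ∣ n then (0 : Q) else c (n : ZMod m)).sum =
      (D.map fun n : ℕ => c (n : ZMod m)).sum := by
    intro D hD
    congr 1
    apply Multiset.map_congr rfl
    intro n hn
    rw [if_neg (hD n hn)]
  rw [e1 A hA, e1 B hB] at h1
  exact h1

lemma Same.SW {q m : ℕ} (hq : q.Prime) (hqm : q ∣ m) (hm : m ≠ 0)
    (hq2 : 2 < q ^ (m.factorization q)) {A B : Multiset ℕ} (hA : ∀ a ∈ A, ¬ q ∣ a)
    (hB : ∀ b ∈ B, ¬ q ∣ b) (h : Same q m A B) {t : ℕ} (ht : Nat.Coprime t m) :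
    SW m A t = SW m B t := by
  have hN : NeZero m := ⟨hm⟩
  have hs : OddDist (fun a : ZMod m => saw (((ZMod.unitOfCoprime t ht : (ZMod m)ˣ) : ZMod m) * a)) := by
    constructor
    · intro a; simp only [mul_neg, saw_neg]
    · intro a ha
      apply saw_half
      rw [← mul_add, ha, mul_zero]
    · intro p d' _ hpd a
      exact saw_dist_unit hpd _ a
  have h1 := h.all hq hqm hm hq2 hA hB ℤ _ hs
  unfold Y2.SW
  have e : ∀ D : Multiset ℕ, (D.map fun a => saw ((t * a : ℕ) : ZMod m)).sum =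
      (D.map fun a : ℕ => saw (((ZMod.unitOfCoprime t ht : (ZMod m)ˣ) : ZMod m) * (a : ZMod m))).sum := by
    intro D
    congr 1
    apply Multiset.map_congr rfl
    intro a _
    rw [ZMod.coe_unitOfCoprime]
    push_cast
    rfl
  rw [e, e]
  exact h1

/-- the setting with the opposite entries -/
lemma neg_setting {q d m : ℕ} {A1 A2 : Multiset ℕ} (H : Setting q d m A1 A2) :
    Setting q d m (A1.map fun a => (m - 1) * a) (A2.map fun a => (d - 1) * a) := by
  have hm := H.hm
  have hd := H.hd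
  have hNm : NeZero m := ⟨hm⟩
  have hNd : NeZero d := ⟨hd⟩
  have hqm : q ∣ m := Dvd.intro d H.hqd
  have hcop : ¬ q ∣ m - 1 := by
    intro h
    have h1 : q ∣ m - (m - 1) := Nat.dvd_sub hqm h
    have h2 : m - (m - 1) = 1 := by omega
    rw [h2] at h1
    exact H.hq.one_lt.ne' (Nat.dvd_one.mp h1)
  have key : ∀ (e : ℕ) (_ : NeZero e) (B : Multiset ℕ) (t : ℕ),
      SW e (B.map fun a => (e - 1) * a) t = - SW e B t := by
    intro e he B t
    unfold Y2.SW
    rw [Multiset.map_map]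
    apply sum_neg_map
    intro b _
    simp only [Function.comp_apply]
    rw [← saw_neg, ← neg_cast he.out]
    congr 2
    ring
  refine ⟨H.hq, H.hqd, H.hodd, ?_, ?_⟩
  · intro a ha h
    obtain ⟨b, hb, rfl⟩ := Multiset.mem_map.mp ha
    rcases (Nat.Prime.dvd_mul H.hq).mp h with h | h
    · exact hcop h
    · exact H.hA b hb h
  · intro t ht
    rw [key m hNm, key d hNd]
    have := H.hrel t ht
    linarith

/-- the relations of the good levels are killed -/
def Kills2 (m : ℕ) {Q : Type} [AddCommGroup Q] (C : ZMod (2 * m) → Q) : Prop :=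
  ∀ l e : ℕ, l * e = m → Cv.GoodDegree2 (2 * e) → ∀ A : Multiset ℕ, (∀ a ∈ A, ¬ e ∣ a) →
    (∀ t, Nat.Coprime t e → SW e A t = 0) →
      (A.map fun a : ℕ => C ((2 * (l * a) : ℕ) : ZMod (2 * m))).sum = 0

lemma Kills2.comp {q d m : ℕ} (hqd : q * d = m) {Q : Type} [AddCommGroup Q]
    {C : ZMod (2 * m) → Q} (h : Kills2 m C) :
    Kills2 d (fun b : ZMod (2 * d) => C (iota q b)) := by
  intro l e hle hg A hA hrel
  rw [← h (q * l) e (by rw [mul_assoc, hle, hqd]) hg A hA hrel]
  congr 1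
  apply Multiset.map_congr rfl
  intro a _
  change C (iota q ((2 * (l * a) : ℕ) : ZMod (2 * d))) = _
  rw [iota_natCast (by rw [← hqd]; ring)]
  congr 2; ring

/-- the comparators -/
structure Cmp (q d m : ℕ) (B1 B2 : Multiset ℕ) : Prop where
  set : Setting q d m B1 B2
  nd : ∀ b ∈ B2, ¬ d ∣ b
  kill : ∀ (Q : Type) [AddCommGroup Q] (C : ZMod (2 * m) → Q), OddDist C → Kills2 m C →
    (B1.map fun b : ℕ => C ((2 * b : ℕ) : ZMod (2 * m))).sum +
      (B2.map fun b : ℕ => C ((2 * (q * b) : ℕ) : ZMod (2 * m))).sum = 0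

lemma cmp_zero {q d m : ℕ} (hq : q.Prime) (hqd : q * d = m) (hodd : m % 2 = 1) :
    Cmp q d m 0 0 := by
  refine ⟨⟨hq, hqd, hodd, fun a ha => absurd ha (Multiset.notMem_zero a), fun t _ => ?_⟩,
    fun a ha => absurd ha (Multiset.notMem_zero a), fun Q _ C _ _ => by simp⟩
  simp [Y2.SW]

lemma neg_cast2 {d M x : ℕ} (hd : d ≠ 0) {w : ℕ} (hM : w * d = M) :
    ((w * ((d - 1) * x) : ℕ) : ZMod M) = - ((w * x : ℕ) : ZMod M) := by
  have h1 : x + (d - 1) * x = d * x := by
    obtain ⟨k, hk⟩ : ∃ k, d = k + 1 := ⟨d - 1, by omega⟩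
    rw [hk]; simp; ring
  have h2 : ((w * x + w * ((d - 1) * x) : ℕ) : ZMod M) = 0 := by
    rw [← mul_add, h1, ZMod.natCast_eq_zero_iff, ← hM]
    exact Nat.mul_dvd_mul_left w (Dvd.intro _ rfl)
  push_cast at h2 ⊢
  linear_combination h2

lemma Cmp.neg {q d m : ℕ} {B1 B2 : Multiset ℕ} (h : Cmp q d m B1 B2) :
    Cmp q d m (B1.map fun a => (m - 1) * a) (B2.map fun a => (d - 1) * a) := by
  have hd := h.set.hd
  have hm := h.set.hm
  refine ⟨neg_setting h.set, ?_, ?_⟩
  · intro b hb hdb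
    obtain ⟨c, hc, rfl⟩ := Multiset.mem_map.mp hb
    apply h.nd c hc
    have h1 : c + (d - 1) * c = d * c := by
      obtain ⟨k, hk⟩ : ∃ k, d = k + 1 := ⟨d - 1, by omega⟩
      rw [hk]; simp; ring
    have h2 : d ∣ c + (d - 1) * c := by rw [h1]; exact Dvd.intro _ rfl
    exact (Nat.dvd_add_left hdb).mp h2
  · intro Q _ C hC hK
    have h1 := h.kill Q C hC hK
    rw [Multiset.map_map, Multiset.map_map]
    have e1 : (B1.map ((fun b : ℕ => C ((2 * b : ℕ) : ZMod (2 * m))) ∘ fun a => (m - 1) * a)).sum =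
        - (B1.map fun b : ℕ => C ((2 * b : ℕ) : ZMod (2 * m))).sum := by
      apply sum_neg_map
      intro b _
      simp only [Function.comp_apply]
      rw [neg_cast2 hm rfl, hC.neg]
    have e2 : (B2.map ((fun b : ℕ => C ((2 * (q * b) : ℕ) : ZMod (2 * m))) ∘
        fun a => (d - 1) * a)).sum =
        - (B2.map fun b : ℕ => C ((2 * (q * b) : ℕ) : ZMod (2 * m))).sum := by
      apply sum_neg_map
      intro b _
      simp only [Function.comp_apply]
      have e3 : 2 * (q * ((d - 1) * b)) = 2 * q * ((d - 1) * b) := by ring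
      have e4 : 2 * (q * b) = 2 * q * b := by ring
      rw [e3, e4, neg_cast2 hd (by rw [mul_assoc, h.set.hqd]), hC.neg]
    rw [e1, e2]
    rw [← neg_add, h1, neg_zero]

section

variable {q m' m : ℕ} {A : Multiset ℕ}

/-- the test function -/
def Th (q m' : ℕ) (x : ℕ) : ℤ := if q ∣ x then (0 : ℤ) else th m' (1 * x)

namespace Ctx

variable (H : Ctx q 1 m' m A)

include H

lemma m'odd : m' % 2 = 1 := by
  have h1 := H.hodd
  rw [← H.qm, ← Nat.odd_iff, Nat.odd_mul] at h1
  exact Nat.odd_iff.mp h1.2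

lemma ld : LD (PO q m) m' (fun x => th m' (1 * x)) := by
  apply ld_th H.m'odd _ (Nat.coprime_one_left m')
  intro r hr
  obtain ⟨hr1, hr2, hr3⟩ := PO_prime hr
  refine ⟨hr1, ?_⟩
  rw [← H.qm] at hr2
  rcases (Nat.Prime.dvd_mul hr1).mp hr2 with h | h
  · exact absurd ((Nat.prime_dvd_prime_iff_eq hr1 H.hq).mp h) hr3
  · exact h

lemma Th_td : TD q m (PO q m) (Th q m') :=
  lift_td H.hq (e := 1) (d := m') Nat.one_pos (by rw [pow_one]; exact H.qm) H.ld

lemma Th_odd : ∀ x y, m ∣ x + y → Th q m' y = - Th q m' x := by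
  intro x y hxy
  have h3 : q ∣ x ↔ q ∣ y := by
    constructor
    · intro h; exact (Nat.dvd_add_right h).mp (H.hqdm.trans hxy)
    · intro h; exact (Nat.dvd_add_left h).mp (H.hqdm.trans hxy)
  unfold Th
  by_cases h : q ∣ x
  · rw [if_pos h, if_pos (h3.mp h), neg_zero]
  · rw [if_neg h, if_neg (fun h' => h (h3.mpr h'))]
    exact H.ld.odd x y (H.mm.trans hxy)

lemma LL_Th : LL m A (Th q m') = 2 * (A.map (th m')).sum := by
  rw [H.LL_odd H.Th_odd]
  congr 2
  apply Multiset.map_congr rfl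
  intro a ha
  unfold Th
  rw [if_neg (H.hA a ha), one_mul]

lemma LL_Th_abs : |LL m A (Th q m')| ≤ 2 * Multiset.card A := by
  rw [H.LL_Th, abs_mul]
  have h1 := abs_sum_le A (th m') 1 (fun a _ => th_abs m' a)
  rw [mul_one] at h1
  have h2 : |(2 : ℤ)| = 2 := rfl
  rw [h2]
  linarith

lemma SJ_Th {J : Finset ℕ} (hJ : IsJ q m' m J) {l : ℕ} (hl : 3 * l = m') :
    SJ J (Th q m') (2 * l) = q - 1 := by
  have hl0 : l ≠ 0 := by rintro rfl; rw [mul_zero] at hl; exact H.hm' hl.symm
  have hq2l : ¬ q ∣ 2 * l := by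
    intro h
    rcases (Nat.Prime.dvd_mul H.hq).mp h with h | h
    · have := Nat.le_of_dvd (by norm_num) h
      have := H.q3
      omega
    · exact H.hqm' (h.trans (Dvd.intro_left _ hl))
  have hth : th m' (2 * l) = 1 := by
    unfold th
    have h1 : 2 * l % m' = 2 * l := Nat.mod_eq_of_lt (by omega)
    rw [if_neg, h1, if_neg (by omega)]
    intro h
    have := Nat.le_of_dvd (by omega) h
    omega
  have h1 : ∀ κ ∈ J, Th q m' (κ * (2 * l)) = 1 := by
    intro κ hκ
    unfold Th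
    rw [if_neg, one_mul, ← hth]
    · apply th_per
      have := (hJ.one κ hκ).mul_right (2 * l)
      rwa [one_mul] at this
    · intro h
      rcases (Nat.Prime.dvd_mul H.hq).mp h with h | h
      · exact hJ.ndvd H.hq H.hqdm hκ h
      · exact hq2l h
  unfold SJ
  rw [sum_congr rfl h1, sum_const, hJ.card, nsmul_eq_mul, mul_one, Nat.cast_sub H.hq.one_le,
    Nat.cast_one]

/-- **Comparison.** -/
theorem compare : (∀ C : ℕ → ℤ, TD q m (PO q m) C → LL m A C = 0) ∨
    ∃ l, 3 * l = m' ∧ q - 1 ≤ 2 * Multiset.card A ∧ ∀ B : Multiset ℕ, Ctx q 1 m' m B →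
      2 * (B.map (th m')).sum = (q : ℤ) - 1 →
      ∃ ε : ℤ, (ε = 1 ∨ ε = -1) ∧ ∀ C : ℕ → ℤ, TD q m (PO q m) C → LL m A C = ε * LL m B C := by
  obtain ⟨J, hJ⟩ := H.exists_IsJ
  have hq1 : (2 : ℤ) ≤ q := by exact_mod_cast H.hq.two_le
  rcases H.trich hJ with h | ⟨l, hl, n, hn⟩
  · exact Or.inl h
  by_cases hn0 : n = 0
  · left
    intro C hC
    rw [hn C hC, hn0, zero_mul]
  right
  have h1 := hn _ H.Th_td
  rw [H.SJ_Th hJ hl] at h1
  have h2 := H.LL_Th_abs
  rw [h1, abs_mul] at h2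
  have h3 : |(q : ℤ) - 1| = q - 1 := abs_of_nonneg (by omega)
  rw [h3] at h2
  have h4 : (1 : ℤ) ≤ |n| := Int.one_le_abs hn0
  have hcard : (Multiset.card A : ℤ) < (q : ℤ) - 1 := by
    have h5 := H.hcard
    unfold nm at h5
    rw [if_pos rfl] at h5
    omega
  have h6 : |n| = 1 := by
    by_contra hne
    have h7 : (2 : ℤ) ≤ |n| := by omega
    nlinarith
  refine ⟨l, hl, ?_, ?_⟩
  · rw [h6, one_mul] at h2
    omega
  · intro B HB hB
    rcases HB.trich hJ with h | ⟨l', hl', n', hn'⟩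
    · exfalso
      have h7 := h _ HB.Th_td
      rw [HB.LL_Th, hB] at h7
      omega
    · have hll : l' = l := by omega
      subst hll
      have h7 := hn' _ HB.Th_td
      rw [HB.LL_Th, hB, HB.SJ_Th hJ hl'] at h7
      have h8 : n' = 1 := by
        have h9 : (n' - 1) * ((q : ℤ) - 1) = 0 := by linarith
        rcases mul_eq_zero.mp h9 with h9 | h9
        · omega
        · omega
      refine ⟨n, ?_, ?_⟩
      · exact (abs_eq (by norm_num)).mp h6
      · intro C hC
        rw [hn C hC, hn' C hC, h8, one_mul]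

end Ctx

end

end Pool.Agent.J4.H26.Od
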