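import Pool.Agent.J4.H26.Od.Cmp

/-!
The comparators for the primes `5, 7, 11, 13, 17, 19`.
-/

set_option autoImplicit false

namespace Pool.Agent.J4.H26.Od

open Finset Pool.Agent.H916R2 Pool.Agent.Y2

/-- a comparator of level `3 * q` -/
structure Lst (q : ℕ) (E E0 : List ℕ) : Prop where
  ndq : ∀ x ∈ E, ¬ q ∣ x
  len : E.length < q - 1
  len0 : E0.length ≤ 1
  nd3 : ∀ x ∈ E0, ¬ 3 ∣ x
  rel : ∀ t : ZMod (3 * q), t.val.gcd (3 * q) = 1 →
    ((E ++ E0.map (fun x => q * x)).map fun x : ℕ => saw (t * (x : ZMod (3 * q)))).sum = 0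
  ths : 2 * (E.map (th 3)).sum = (q : ℤ) - 1
  good : Cv.GoodDegree2 (2 * (3 * q))

lemma primes_six {q p : ℕ} (hq : q.Prime) (hp : p.Prime) (h : p ∣ 2 * (3 * q)) :
    p = 2 ∨ p = 3 ∨ p = q := by
  rcases (Nat.Prime.dvd_mul hp).mp h with h1 | h1
  · exact Or.inl ((Nat.prime_dvd_prime_iff_eq hp Nat.prime_two).mp h1)
  · rcases (Nat.Prime.dvd_mul hp).mp h1 with h2 | h2
    · exact Or.inr (Or.inl ((Nat.prime_dvd_prime_iff_eq hp Nat.prime_three).mp h2))
    · exact Or.inr (Or.inr ((Nat.prime_dvd_prime_iff_eq hp hq).mp h2))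

lemma lst5 : Lst 5 [2, 11, 12] [1] := by
  refine ⟨by decide, by decide, by decide, by decide, by decide +kernel, by decide, ?_⟩
  exact Or.inl fun p hp h => primes_six (by norm_num) hp h

lemma lst7 : Lst 7 [2, 8, 15, 17] [] := by
  refine ⟨by decide, by decide, by decide, by decide, by decide +kernel, by decide, ?_⟩
  exact Or.inr (Or.inl fun p hp h => primes_six (by norm_num) hp h)

lemma lst11 : Lst 11 [5, 14, 20, 23, 26] [1] := by
  refine ⟨by decide, by decide, by decide, by decide, by decide +kernel, by decide, ?_⟩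
  exact Or.inr (Or.inr (Or.inr (Or.inl fun p hp h => primes_six (by norm_num) hp h)))

lemma lst13 : Lst 13 [2, 5, 14, 29, 32, 35] [] := by
  refine ⟨by decide, by decide, by decide, by decide, by decide +kernel, by decide, ?_⟩
  exact Or.inr (Or.inr (Or.inr (Or.inr (Or.inl fun p hp h => primes_six (by norm_num) hp h))))

lemma lst17 : Lst 17 [2, 8, 20, 23, 29, 35, 38, 41, 42] [1] := by
  refine ⟨by decide, by decide, by decide, by decide, by decide +kernel, by decide, ?_⟩
  exact Or.inr (Or.inr (Or.inr (Or.inr (Or.inr (Or.inl ⟨by norm_num, Or.inr (Or.inl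
    fun p hp h => primes_six (by norm_num) hp h)⟩)))))

lemma lst19 : Lst 19 [2, 5, 8, 20, 26, 39, 41, 44, 47, 53] [] := by
  refine ⟨by decide, by decide, by decide, by decide, by decide +kernel, by decide, ?_⟩
  exact Or.inr (Or.inr (Or.inr (Or.inr (Or.inr (Or.inl ⟨by norm_num, Or.inr (Or.inr
    fun p hp h => primes_six (by norm_num) hp h)⟩)))))

namespace Lst

variable {q : ℕ} {E E0 : List ℕ} (h : Lst q E E0)

include h

lemma sw {t : ℕ} (ht : Nat.Coprime t (3 * q)) :
    SW (3 * q) ((E : Multiset ℕ) + ((E0 : Multiset ℕ).map fun x => q * x)) t = 0 := by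
  have h1 := h.rel (t : ZMod (3 * q)) (by
    rw [ZMod.val_natCast, ← Nat.gcd_rec, Nat.gcd_comm]; exact ht)
  unfold Y2.SW
  rw [Multiset.map_coe, Multiset.coe_add, Multiset.map_coe, Multiset.sum_coe]
  push_cast
  exact h1

lemma cmp (hq : q.Prime) {l m : ℕ} (hqm : q * (3 * l) = m) (hqd : ¬ q ∣ 3 * l)
    (hodd : m % 2 = 1) :
    Cmp q (3 * l) m ((E : Multiset ℕ).map fun x => l * x) ((E0 : Multiset ℕ).map fun x => l * x) := by
  have hm : m ≠ 0 := by rintro rfl; simp at hodd
  have hl : l ≠ 0 := by rintro rfl; simp at hqm; exact hm hqm.symm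
  have hlm : l * (3 * q) = m := by rw [← hqm]; ring
  have hq0 : 3 * q ≠ 0 := by have := hq.pos; omega
  have hql : ¬ q ∣ l := fun h => hqd (h.mul_left 3)
  refine ⟨⟨hq, hqm, hodd, ?_, ?_⟩, ?_, ?_⟩
  · intro a ha hqa
    obtain ⟨x, hx, rfl⟩ := Multiset.mem_map.mp ha
    rcases (Nat.Prime.dvd_mul hq).mp hqa with h1 | h1
    · exact hql h1
    · exact h.ndq x hx h1
  · intro t ht
    have ht3 : Nat.Coprime t (3 * q) := Nat.Coprime.coprime_dvd_right (Dvd.intro_left l hlm) ht
    rw [SW_lmul hm hlm, SW_lmul (e := 3) (by omega : 3 * l ≠ 0) (mul_comm l 3)]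
    have h1 := h.sw ht3
    rw [SW_add, SW_lmul hq0 (mul_comm q 3)] at h1
    linear_combination (l : ℤ) * h1
  · intro b hb h3
    obtain ⟨x, hx, rfl⟩ := Multiset.mem_map.mp hb
    apply h.nd3 x hx
    rw [mul_comm 3 l] at h3
    exact Nat.dvd_of_mul_dvd_mul_left (Nat.pos_of_ne_zero hl) h3
  · intro Q _ C hC hK
    have h1 := hK l (3 * q) hlm h.good ((E : Multiset ℕ) + ((E0 : Multiset ℕ).map fun x => q * x))
      (by
        intro a ha h3
        rcases Multiset.mem_add.mp ha with ha | ha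
        · exact h.ndq a ha ((Dvd.intro_left 3 rfl).trans h3)
        · obtain ⟨x, hx, rfl⟩ := Multiset.mem_map.mp ha
          apply h.nd3 x hx
          rw [mul_comm 3 q] at h3
          exact Nat.dvd_of_mul_dvd_mul_left hq.pos h3) (fun t ht => h.sw ht)
    rw [Multiset.map_add, Multiset.sum_add, Multiset.map_map] at h1
    rw [Multiset.map_map, Multiset.map_map, ← h1]
    congr 3
    funext x
    simp only [Function.comp_apply]
    congr 2
    ring

lemma ths' (l : ℕ) (hl : l ≠ 0) :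
    2 * (((E : Multiset ℕ).map fun x => l * x).map (th (3 * l))).sum = (q : ℤ) - 1 := by
  rw [← h.ths, Multiset.map_map, Multiset.map_coe, Multiset.sum_coe]
  congr 3
  funext x
  simp only [Function.comp_apply]
  unfold th
  have h1 : 3 * l ∣ l * x ↔ 3 ∣ x := by
    rw [mul_comm 3 l]
    exact Nat.mul_dvd_mul_iff_left (Nat.pos_of_ne_zero hl)
  have h2 : l * x % (3 * l) = l * (x % 3) := by
    rw [mul_comm 3 l, Nat.mul_mod_mul_left]
  have h3 : 2 * (l * (x % 3)) < 3 * l ↔ 2 * (x % 3) < 3 := by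
    have e1 : 2 * (l * (x % 3)) = l * (2 * (x % 3)) := by ring
    rw [e1, mul_comm 3 l]
    exact Nat.mul_lt_mul_left (Nat.pos_of_ne_zero hl)
  simp only [h1, h2, h3]

end Lst

end Pool.Agent.J4.H26.Od
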