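import Pool.Agent.Y2.Star

/-!
Extension of rational distributions to higher levels, without increasing the sums of the absolute
values over a family of multipliers.
-/

set_option autoImplicit false

namespace Pool.Agent.J4.H26.Od

open Finset Pool.Agent.H916R2 Pool.Agent.Y2

/-- the extended function -/
noncomputable def up1 (r M s : ℕ) (C : ℕ → ℚ) (x : ℕ) : ℚ :=
  if r ∣ x then C (x / r) else if r ∣ M then C x / r else (C x - C (s * x)) / (r - 1)

section

variable {q M r s : ℕ} {C : ℕ → ℚ}

lemma up1_mul (hr : 0 < r) (x : ℕ) : up1 r M s C (r * x) = C x := by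
  rw [up1, if_pos (Dvd.intro _ rfl), Nat.mul_div_cancel_left _ hr]

lemma div_modEq (hr : 0 < r) {x y : ℕ} (hx : r ∣ x) (hy : r ∣ y) (h : x ≡ y [MOD r * M]) :
    x / r ≡ y / r [MOD M] := by
  obtain ⟨a, rfl⟩ := hx
  obtain ⟨b, rfl⟩ := hy
  rw [Nat.mul_div_cancel_left _ hr, Nat.mul_div_cancel_left _ hr]
  exact Nat.ModEq.mul_left_cancel' hr.ne' h

lemma mem_PO {q m p : ℕ} : p ∈ PO q m ↔ p ≠ q ∧ p.Prime ∧ p ∣ m ∧ m ≠ 0 := by
  rw [PO, Finset.mem_erase, Nat.mem_primeFactors]

theorem up1_td (hq : q.Prime) (hr : r.Prime) (hrq : r ≠ q) (hM : M ≠ 0) (hqM : q ∣ M) (hr2 : 2 ≤ r)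
    (hs : ¬ r ∣ M → r * s ≡ 1 [MOD M]) (hC : TD q M (PO q M) C) :
    TD q (r * M) (PO q (r * M)) (up1 r M s C) := by
  have hr0 : 0 < r := hr.pos
  have hr0' : (r : ℚ) ≠ 0 := by exact_mod_cast hr0.ne'
  have hr1 : (r : ℚ) - 1 ≠ 0 := by
    have : (2 : ℚ) ≤ r := by exact_mod_cast hr2
    linarith
  refine ⟨?_, ?_, ?_⟩
  · intro x y hxy
    have h1 : r ∣ x ↔ r ∣ y := (hxy.of_dvd (Dvd.intro _ rfl)).dvd_iff dvd_rfl
    have h2 : x ≡ y [MOD M] := hxy.of_dvd (Dvd.intro_left _ rfl)
    unfold up1
    by_cases hx : r ∣ x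
    · rw [if_pos hx, if_pos (h1.mp hx)]
      exact hC.per _ _ (div_modEq hr0 hx (h1.mp hx) hxy)
    · rw [if_neg hx, if_neg (fun h => hx (h1.mpr h)), hC.per _ _ h2, hC.per _ _ (h2.mul_left s)]
  · intro _ n hn
    unfold up1
    by_cases hx : r ∣ n
    · rw [if_pos hx]
      apply hC.supp hqM
      obtain ⟨a, rfl⟩ := hx
      rw [Nat.mul_div_cancel_left _ hr0]
      rcases (Nat.Prime.dvd_mul hq).mp hn with h | h
      · exact absurd ((Nat.prime_dvd_prime_iff_eq hq hr).mp h).symm hrq
      · exact h
    · rw [if_neg hx, hC.supp hqM n hn, hC.supp hqM _ (hn.mul_left s)]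
      simp
  · intro p hp n
    obtain ⟨hpq, hpp, hpd, _⟩ := mem_PO.mp hp
    by_cases hpr : p = r
    · subst hpr
      rw [Nat.mul_div_cancel_left _ hr0, up1_mul hr0]
      by_cases hrM : p ∣ M
      · have hmem : p ∈ PO q M := mem_PO.mpr ⟨hpq, hpp, hrM, hM⟩
        by_cases hx : p ∣ n
        · have h1 : ∀ i ∈ range p, up1 p M s C (n + i * M) = C (n / p + i * (M / p)) := by
            intro i _
            have h2 : p ∣ n + i * M := dvd_add hx (hrM.mul_left i)
            rw [up1, if_pos h2]
            congr 1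
            obtain ⟨a, rfl⟩ := hx
            obtain ⟨b, rfl⟩ := hrM
            rw [Nat.mul_div_cancel_left _ hr0, Nat.mul_div_cancel_left _ hr0]
            apply Nat.div_eq_of_eq_mul_right hr0
            ring
          rw [sum_congr rfl h1, hC.dist p hmem, Nat.mul_div_cancel' hx]
        · have h1 : ∀ i ∈ range p, up1 p M s C (n + i * M) = C n / p := by
            intro i _
            have h2 : ¬ p ∣ n + i * M := fun h => hx ((Nat.dvd_add_left (hrM.mul_left i)).mp h)
            rw [up1, if_neg h2, if_pos hrM]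
            congr 1
            apply hC.per
            simp
          rw [sum_congr rfl h1, sum_const, card_range, nsmul_eq_mul]
          field_simp
      · have hs' := hs hrM
        have h1 : ∀ i ∈ range p, up1 p M s C (n + i * M) =
            C (s * n) + if ¬ p ∣ n + i * M then (C n - C (s * n)) / (p - 1) - C (s * n) else 0 := by
          intro i _
          have e1 : C (n + i * M) = C n := by
            apply hC.per
            simp
          have e2 : C (s * (n + i * M)) = C (s * n) := by
            apply hC.per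
            apply Nat.ModEq.mul_left
            simp
          by_cases h2 : p ∣ n + i * M
          · rw [up1, if_pos h2, if_neg (not_not.mpr h2), add_zero, ← e2]
            apply hC.per
            have h3 := hs'.mul_right ((n + i * M) / p)
            rw [one_mul] at h3
            have h4 : p * s * ((n + i * M) / p) = s * (n + i * M) := by
              conv_rhs => rw [← Nat.mul_div_cancel' h2]
              ring
            rw [h4] at h3
            exact h3.symm
          · rw [up1, if_neg h2, if_neg hrM, if_pos h2, e1, e2]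
            ring
        rw [sum_congr rfl h1, sum_add_distrib, sum_const, card_range, nsmul_eq_mul,
          ← Finset.sum_filter, sum_const, card_not_dvd hpp hrM n, nsmul_eq_mul, Nat.cast_sub hr0]
        push_cast
        field_simp
        ring
    · have hpM : p ∣ M := by
        rcases (Nat.Prime.dvd_mul hpp).mp hpd with h | h
        · exact absurd ((Nat.prime_dvd_prime_iff_eq hpp hr).mp h) hpr
        · exact h
      have hmem : p ∈ PO q M := mem_PO.mpr ⟨hpq, hpp, hpM, hM⟩
      have hMp : r * M / p = r * (M / p) := Nat.mul_div_assoc _ hpM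
      have hcop : Nat.Coprime r p := (Nat.coprime_primes hr hpp).mpr (Ne.symm hpr)
      have hshift : ∀ k, Nat.Coprime k p → ∀ z, ∑ i ∈ range p, C (z + k * i * (M / p)) = C (p * z) := by
        intro k hk z
        rw [coset_mul hpp.pos (Nat.mul_div_cancel' hpM) hC.per hk z]
        exact hC.dist p hmem z
      by_cases hx : r ∣ n
      · have h1 : ∀ i ∈ range p, up1 r M s C (n + i * (r * M / p)) = C (n / r + i * (M / p)) := by
          intro i _
          have h2 : r ∣ n + i * (r * M / p) := by
            rw [hMp]; exact dvd_add hx ((Dvd.intro _ rfl : r ∣ r * (M / p)).mul_left i)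
          rw [up1, if_pos h2]
          congr 1
          obtain ⟨a, rfl⟩ := hx
          rw [Nat.mul_div_cancel_left _ hr0]
          apply Nat.div_eq_of_eq_mul_right hr0
          rw [hMp]; ring
        rw [sum_congr rfl h1, hC.dist p hmem, up1, if_pos (hx.mul_left p), Nat.mul_div_assoc _ hx]
      · have h3 : ∀ i, ¬ r ∣ n + i * (r * M / p) := by
          intro i h
          apply hx
          rw [hMp] at h
          exact (Nat.dvd_add_left ((Dvd.intro _ rfl : r ∣ r * (M / p)).mul_left i)).mp h
        have h4 : ¬ r ∣ p * n := by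
          intro h
          rcases (Nat.Prime.dvd_mul hr).mp h with h5 | h5
          · exact hpr ((Nat.prime_dvd_prime_iff_eq hr hpp).mp h5).symm
          · exact hx h5
        have e1 : ∀ i, C (n + i * (r * M / p)) = C (n + r * i * (M / p)) := by
          intro i; rw [hMp]; congr 1; ring
        by_cases hrM : r ∣ M
        · have h1 : ∀ i ∈ range p, up1 r M s C (n + i * (r * M / p)) =
              C (n + r * i * (M / p)) / r := by
            intro i _
            rw [up1, if_neg (h3 i), if_pos hrM, e1]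
          rw [sum_congr rfl h1, ← sum_div, hshift r hcop n, up1, if_neg h4, if_pos hrM]
        · have hs' := hs hrM
          have hsp : Nat.Coprime (s * r) p := by
            have h5 : r * s ≡ 1 [MOD p] := hs'.of_dvd hpM
            have h6 : Nat.gcd (r * s) p = 1 := by
              have := h5.gcd_eq
              rw [Nat.gcd_one_left] at this; exact this
            rw [mul_comm]; exact h6
          have h1 : ∀ i ∈ range p, up1 r M s C (n + i * (r * M / p)) =
              (C (n + r * i * (M / p)) - C (s * n + s * r * i * (M / p))) / (r - 1) := by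
            intro i _
            rw [up1, if_neg (h3 i), if_neg hrM, e1]
            congr 3
            rw [hMp]; ring
          rw [sum_congr rfl h1, ← sum_div, sum_sub_distrib, hshift r hcop n,
            hshift (s * r) hsp (s * n), up1, if_neg h4, if_neg hrM,
            show p * (s * n) = s * (p * n) by ring]

/-- the support of the extension -/
lemma up1_supp (hr : r.Prime) (hs : ¬ r ∣ M → r * s ≡ 1 [MOD M]) {k : ℕ}
    (hk : ∀ x, C x ≠ 0 → Nat.gcd x M ∣ k) (x : ℕ) (hx : up1 r M s C x ≠ 0) :
    Nat.gcd x (r * M) ∣ r * k := by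
  unfold up1 at hx
  by_cases h : r ∣ x
  · rw [if_pos h] at hx
    obtain ⟨a, rfl⟩ := h
    rw [Nat.mul_div_cancel_left _ hr.pos] at hx
    rw [Nat.gcd_mul_left]
    exact Nat.mul_dvd_mul_left r (hk a hx)
  · rw [if_neg h] at hx
    have h1 : Nat.gcd x (r * M) = Nat.gcd x M := by
      apply Nat.Coprime.gcd_mul_left_cancel_right
      exact (Nat.Prime.coprime_iff_not_dvd hr).mpr h
    rw [h1]
    apply Dvd.dvd.mul_left
    by_cases hrM : r ∣ M
    · rw [if_pos hrM] at hx
      apply hk
      intro h0
      rw [h0] at hx; simp at hx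
    · rw [if_neg hrM] at hx
      by_cases h0 : C x = 0
      · have h2 : C (s * x) ≠ 0 := by
          intro h3
          rw [h0, h3] at hx; simp at hx
        have h3 := hk _ h2
        have h4 : Nat.Coprime s M := by
          have h5 : Nat.gcd (r * s) M = 1 := by
            have := (hs hrM).gcd_eq
            rw [Nat.gcd_one_left] at this; exact this
          exact Nat.Coprime.coprime_mul_left h5
        rwa [Nat.Coprime.gcd_mul_left_cancel _ h4] at h3
      · exact hk x h0

/-- the absolute values of the extension -/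
lemma up1_bound (hr : r.Prime) (hr3 : 3 ≤ r) (I : Multiset ℕ) (hI : ∀ κ ∈ I, ¬ r ∣ κ) {B : ℚ}
    (hB0 : 0 ≤ B) (hB : ∀ x, (I.map fun κ => |C (κ * x)|).sum ≤ B) (x : ℕ) :
    (I.map fun κ => |up1 r M s C (κ * x)|).sum ≤ B := by
  have hr0 : 0 < r := hr.pos
  have hr3' : (3 : ℚ) ≤ r := by exact_mod_cast hr3
  by_cases h : r ∣ x
  · refine le_trans (le_of_eq ?_) (hB (x / r))
    congr 1
    apply Multiset.map_congr rfl
    intro κ _
    rw [up1, if_pos (h.mul_left κ), Nat.mul_div_assoc _ h]
  · have h1 : ∀ κ ∈ I, ¬ r ∣ κ * x := by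
      intro κ hκ h2
      rcases (Nat.Prime.dvd_mul hr).mp h2 with h3 | h3
      · exact hI κ hκ h3
      · exact h h3
    by_cases hrM : r ∣ M
    · have h2 : (I.map fun κ => |up1 r M s C (κ * x)|).sum =
          (1 / r) * (I.map fun κ => |C (κ * x)|).sum := by
        rw [← Multiset.sum_map_mul_left]
        congr 1
        apply Multiset.map_congr rfl
        intro κ hκ
        rw [up1, if_neg (h1 κ hκ), if_pos hrM, abs_div, abs_of_nonneg (by positivity : (0 : ℚ) ≤ r)]
        ring
      rw [h2]
      calc (1 / (r : ℚ)) * (I.map fun κ => |C (κ * x)|).sum ≤ (1 / r) * B :=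
            mul_le_mul_of_nonneg_left (hB x) (by positivity)
        _ ≤ B := by
            rw [div_mul_eq_mul_div, one_mul, div_le_iff₀ (by linarith)]
            nlinarith
    · have h2 : (I.map fun κ => |up1 r M s C (κ * x)|).sum ≤
          (1 / ((r : ℚ) - 1)) * ((I.map fun κ => |C (κ * x)|).sum +
            (I.map fun κ => |C (κ * (s * x))|).sum) := by
        rw [← Multiset.sum_map_add, ← Multiset.sum_map_mul_left]
        apply Multiset.sum_map_le_sum_map
        intro κ hκ
        rw [up1, if_neg (h1 κ hκ), if_neg hrM, abs_div, abs_of_nonneg (by linarith : (0 : ℚ) ≤ r - 1),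
          show s * (κ * x) = κ * (s * x) by ring, div_eq_mul_one_div, mul_comm]
        apply mul_le_mul_of_nonneg_left (abs_sub _ _)
        apply div_nonneg zero_le_one; linarith
      refine h2.trans ?_
      have h3 := hB x
      have h4 := hB (s * x)
      rw [div_mul_eq_mul_div, one_mul, div_le_iff₀ (by linarith)]
      nlinarith

end

/-- **Extension** of a rational distribution from the level `M` to the level `k * M`. -/
theorem exists_up {q : ℕ} (hq : q.Prime) : ∀ k M : ℕ, k ≠ 0 → M ≠ 0 → q ∣ M →
    (∀ r, r.Prime → r ∣ k → r ≠ q ∧ 3 ≤ r) → ∀ (C : ℕ → ℚ), TD q M (PO q M) C →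
    ∀ (g : ℕ), (∀ x, C x ≠ 0 → Nat.gcd x M ∣ g) →
    ∀ (I : Multiset ℕ), (∀ κ ∈ I, Nat.Coprime κ k) → ∀ (B : ℚ), 0 ≤ B →
    (∀ x, (I.map fun κ => |C (κ * x)|).sum ≤ B) →
    ∃ C' : ℕ → ℚ, TD q (k * M) (PO q (k * M)) C' ∧ (∀ x, C' (k * x) = C x) ∧
      (∀ x, C' x ≠ 0 → Nat.gcd x (k * M) ∣ k * g) ∧
      (∀ x, (I.map fun κ => |C' (κ * x)|).sum ≤ B) := by
  intro k
  induction k using Nat.strong_induction_on with
  | _ k ih =>
  intro M hk hM hqM hpr C hC g hg I hI B hB0 hB
  by_cases hk1 : k = 1
  · subst hk1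
    refine ⟨C, by rwa [one_mul], fun x => by rw [one_mul], fun x hx => ?_, hB⟩
    rw [one_mul, one_mul]
    exact hg x hx
  · obtain ⟨r, hr, l, hl⟩ := Nat.exists_prime_and_dvd hk1
    obtain ⟨hrq, hr3⟩ := hpr r hr ⟨l, hl⟩
    have hl0 : l ≠ 0 := by rintro rfl; rw [mul_zero] at hl; exact hk hl
    have hlk : l < k := by
      rw [hl]
      have : 0 < l := Nat.pos_of_ne_zero hl0
      nlinarith
    obtain ⟨s, hs⟩ : ∃ s, ¬ r ∣ M → r * s ≡ 1 [MOD M] := by
      by_cases h : r ∣ M
      · exact ⟨0, fun h' => absurd h h'⟩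
      · obtain ⟨s, _, hs⟩ := Nat.exists_mul_mod_eq_of_coprime 1
          ((Nat.Prime.coprime_iff_not_dvd hr).mpr h) hM
        exact ⟨s, fun _ => hs⟩
    have hrc : ∀ κ ∈ I, ¬ r ∣ κ := by
      intro κ hκ h
      have h1 := hI κ hκ
      rw [hl] at h1
      have h2 : Nat.Coprime κ r := Nat.Coprime.coprime_mul_right_right h1
      have h3 : r ∣ Nat.gcd κ r := Nat.dvd_gcd h dvd_rfl
      rw [h2] at h3
      exact hr.one_lt.ne' (Nat.dvd_one.mp h3)
    obtain ⟨C', h1, h2, h3, h4⟩ := ih l hlk (r * M) hl0 (mul_ne_zero hr.ne_zero hM)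
      (hqM.mul_left r) (fun p hp hpl => hpr p hp (hl ▸ hpl.mul_left r))
      (up1 r M s C) (up1_td hq hr hrq hM hqM (by omega) hs hC) (r * g)
      (up1_supp hr hs hg) I (fun κ hκ => by
        have := hI κ hκ
        rw [hl] at this
        exact Nat.Coprime.coprime_mul_left_right this) B hB0 (up1_bound hr hr3 I hrc hB0 hB)
    have e : l * (r * M) = k * M := by rw [hl]; ring
    rw [e] at h1 h3
    refine ⟨C', h1, fun x => ?_, fun x hx => ?_, h4⟩
    · rw [hl, show r * l * x = l * (r * x) by ring, h2, up1_mul hr.pos]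
    · have := h3 x hx
      rwa [show l * (r * g) = k * g by rw [hl]; ring] at this

end Pool.Agent.J4.H26.Od
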